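import Mathlib

/-!
# Period matrices and de Rham-Betti classes on tensor powers
-/

set_option autoImplicit false

namespace Pool.Agent.R919.DR

open Matrix

section classes

variable {J : Type} {B : J → Type} [∀ j, Fintype (B j)] [∀ j, DecidableEq (B j)] (ϖ : ℂ)
  (P : ∀ j, Matrix (B j) (B j) ℂ) {κ : Type} [Fintype κ] [DecidableEq κ] (f : κ → J)

/-- The de Rham-Betti classes of twist `m` in the tensor product over `x : κ` of the objects with
the period matrices `P (f x)` (from the coordinates with respect to a rational basis of the Betti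
realization to the coordinates with respect to an algebraic basis of the de Rham realization): the
rational tensors `c` such that all coordinates of `ϖ ^ (-m) P^{⊗}(c)` are algebraic. -/
def drbClasses (m : ℤ) : Submodule ℚ ((∀ x, B (f x)) → ℚ) where
  carrier := {c | ∀ I : (∀ x, B (f x)), IsAlgebraic ℚ
    (ϖ ^ (-m) * ∑ I' : ∀ x, B (f x), (∏ x, P (f x) (I x) (I' x)) * (c I' : ℂ))}
  zero_mem' := by
    intro I
    simpa using isAlgebraic_zero
  add_mem' := by
    intro c d hc hd I
    have h : (ϖ ^ (-m) * ∑ I' : ∀ x, B (f x), (∏ x, P (f x) (I x) (I' x)) *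
        ((((c + d) I' : ℚ)) : ℂ)) =
        ϖ ^ (-m) * (∑ I' : ∀ x, B (f x), (∏ x, P (f x) (I x) (I' x)) * (c I' : ℂ)) +
          ϖ ^ (-m) * ∑ I' : ∀ x, B (f x), (∏ x, P (f x) (I x) (I' x)) * (d I' : ℂ) := by
      rw [← mul_add, ← Finset.sum_add_distrib]
      congr 1
      refine Finset.sum_congr rfl fun I' _ => ?_
      rw [Pi.add_apply, Rat.cast_add, mul_add]
    rw [h]
    exact (hc I).add (hd I)
  smul_mem' := by
    intro r c hc I
    have h : (ϖ ^ (-m) * ∑ I' : ∀ x, B (f x), (∏ x, P (f x) (I x) (I' x)) *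
        ((((r • c) I' : ℚ)) : ℂ)) =
        (algebraMap ℚ ℂ r) *
          (ϖ ^ (-m) * ∑ I' : ∀ x, B (f x), (∏ x, P (f x) (I x) (I' x)) * (c I' : ℂ)) := by
      simp only [Pi.smul_apply, smul_eq_mul, Rat.cast_mul, Finset.mul_sum]
      refine Finset.sum_congr rfl fun I' _ => ?_
      change _ = (r : ℂ) * _
      ring
    rw [h]
    exact (isAlgebraic_algebraMap r).mul (hc I)

/-- The de Rham-Betti classes of twist `m` in the tensor product of the factors with `f x = j` only,
as functions which do not depend on the coordinates of the other factors. -/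
def drbClassesOf [DecidableEq J] (j : J) (m : ℤ) : Submodule ℚ ((∀ x, B (f x)) → ℚ) where
  carrier := {c | (∀ I I', (∀ x, f x = j → I x = I' x) → c I = c I') ∧
    ∀ I : (∀ x, B (f x)), IsAlgebraic ℚ
    (ϖ ^ (-m) * ∑ I' : ∀ x, B (f x),
      (∏ x, (if f x = j then P (f x) else 1) (I x) (I' x)) * (c I' : ℂ))}
  zero_mem' := by
    refine ⟨fun _ _ _ => rfl, fun I => ?_⟩
    simpa using isAlgebraic_zero
  add_mem' := by
    intro c d hc hd
    refine ⟨fun I I' h => ?_, fun I => ?_⟩
    · rw [Pi.add_apply, Pi.add_apply, hc.1 I I' h, hd.1 I I' h]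
    · have h : (ϖ ^ (-m) * ∑ I' : ∀ x, B (f x),
          (∏ x, (if f x = j then P (f x) else 1) (I x) (I' x)) * ((((c + d) I' : ℚ)) : ℂ)) =
          ϖ ^ (-m) * (∑ I' : ∀ x, B (f x),
            (∏ x, (if f x = j then P (f x) else 1) (I x) (I' x)) * (c I' : ℂ)) +
          ϖ ^ (-m) * ∑ I' : ∀ x, B (f x),
            (∏ x, (if f x = j then P (f x) else 1) (I x) (I' x)) * (d I' : ℂ) := by
        rw [← mul_add, ← Finset.sum_add_distrib]
        congr 1
        refine Finset.sum_congr rfl fun I' _ => ?_
        rw [Pi.add_apply, Rat.cast_add, mul_add]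
      rw [h]
      exact (hc.2 I).add (hd.2 I)
  smul_mem' := by
    intro r c hc
    refine ⟨fun I I' h => ?_, fun I => ?_⟩
    · rw [Pi.smul_apply, Pi.smul_apply, hc.1 I I' h]
    · have h : (ϖ ^ (-m) * ∑ I' : ∀ x, B (f x),
          (∏ x, (if f x = j then P (f x) else 1) (I x) (I' x)) * ((((r • c) I' : ℚ)) : ℂ)) =
          (algebraMap ℚ ℂ r) * (ϖ ^ (-m) * ∑ I' : ∀ x, B (f x),
            (∏ x, (if f x = j then P (f x) else 1) (I x) (I' x)) * (c I' : ℂ)) := by
        simp only [Pi.smul_apply, smul_eq_mul, Rat.cast_mul, Finset.mul_sum]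
        refine Finset.sum_congr rfl fun I' _ => ?_
        change _ = (r : ℂ) * _
        ring
      rw [h]
      exact (isAlgebraic_algebraMap r).mul (hc.2 I)

end classes

section cond

variable {B : Type} [Fintype B] [DecidableEq B]

/-- All entries of the matrix are algebraic numbers. -/
def IsAlg {m n : Type} (A : Matrix m n ℂ) : Prop := ∀ a b, IsAlgebraic ℚ (A a b)

/-- The properties of the period matrix `P` of the first cohomology of an elliptic curve without
complex multiplication over the field of algebraic numbers, with `ϖ = (2 π i)⁻¹` (or of the first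
homology, with `ϖ = 2 π i`): the dimension is two, the determinant is an algebraic multiple of `ϖ`
(Legendre), the rational matrices which are de Rham-Betti endomorphisms are scalar, and no rational
vector spans a de Rham-Betti subobject, up to twists (Schneider, Masser). -/
structure IsEllPeriod (ϖ : ℂ) (P : Matrix B B ℂ) : Prop where
  dim : Fintype.card B = 2
  det : ∃ a : ℂ, a ≠ 0 ∧ IsAlgebraic ℚ a ∧ P.det = a * ϖ
  noCM : ∀ Z : Matrix B B ℚ, IsAlg (P * Z.map (algebraMap ℚ ℂ) * P⁻¹) → ∃ r : ℚ, Z = r • 1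
  simple : ∀ v : B → ℚ, v ≠ 0 → ∀ u : B → ℂ, (∀ a, IsAlgebraic ℚ (u a)) → ∀ r : ℂ,
    P *ᵥ (fun a => (v a : ℂ)) ≠ r • u

/-- There is no nonzero homomorphism of de Rham-Betti objects from the one with the period matrix
`P` to the one with the period matrix `P'`. For elliptic curves over the field of algebraic numbers
this means that they are not isogenous (Wüstholz). -/
def NoHom {B' : Type} [Fintype B'] [DecidableEq B'] (P : Matrix B B ℂ) (P' : Matrix B' B' ℂ) :
    Prop :=
  ∀ Z : Matrix B' B ℚ, IsAlg (P' * Z.map (algebraMap ℚ ℂ) * P⁻¹) → Z = 0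

end cond

end Pool.Agent.R919.DR
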