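import Mathlib
import Pool.Agent.R919.GT.Bd
import Pool.Agent.R919.GT.Sl

/-!
# Lie algebras of families of matrices which contain all matrices of trace zero of size two
-/

set_option linter.unusedSectionVars false
set_option autoImplicit false

namespace Pool.Agent.R919.DR

open Matrix Polynomial Module Pool.Agent.R919.GT

section two

variable {F : Type} [Field F] [CharZero F] {C : Type} [Fintype C] [DecidableEq C]

/-- The standard basis of the matrices of trace zero. -/
theorem std (hC : Fintype.card C = 2) : ∃ h ∈ sl F C, ∃ e ∈ sl F C, ∃ f ∈ sl F C,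
    h * e - e * h = (2 : F) • e ∧ h * f - f * h = (-2 : F) • f ∧ e * f - f * e = h ∧ e ≠ 0 ∧
    (∀ y ∈ sl F C, ∃ p q r : F, y = p • h + q • e + r • f) := by
  obtain ⟨a, b, hab, hall⟩ := exists_two hC
  have hba := hab.symm
  refine ⟨Matrix.single a a 1 - Matrix.single b b 1, ?_, Matrix.single a b 1, ?_,
    Matrix.single b a 1, ?_, ?_, ?_, ?_, ?_, ?_⟩
  · rw [mem_sl, trace_sub, Matrix.trace_single_eq_same, Matrix.trace_single_eq_same, sub_self]
  · rw [mem_sl, Matrix.trace_single_eq_of_ne _ _ _ hab]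
  · rw [mem_sl, Matrix.trace_single_eq_of_ne _ _ _ hba]
  · rw [sub_mul, mul_sub, Matrix.single_mul_single_same, Matrix.single_mul_single_of_ne _ _ _ _ hba,
      Matrix.single_mul_single_of_ne _ _ _ _ hba, Matrix.single_mul_single_same, two_smul]
    simp
  · rw [sub_mul, mul_sub, Matrix.single_mul_single_same, Matrix.single_mul_single_of_ne _ _ _ _ hab,
      Matrix.single_mul_single_of_ne _ _ _ _ hab, Matrix.single_mul_single_same, neg_smul,
      two_smul]
    simp
    abel
  · rw [Matrix.single_mul_single_same, Matrix.single_mul_single_same, mul_one]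
  · intro h
    have h1 := congrFun (congrFun h a) b
    rw [Matrix.single_apply_same] at h1
    exact one_ne_zero h1
  · intro y hy
    refine ⟨y a a, y a b, y b a, ?_⟩
    have ht : y b b = -y a a := by
      rw [mem_sl, Matrix.trace, sum_two hab hall] at hy
      simp only [Matrix.diag_apply] at hy
      linear_combination hy
    ext i j
    rcases hall i with rfl | rfl <;> rcases hall j with rfl | rfl
    · simp [hab, hba]
    · simp [hab, hba]
    · simp [hab, hba]
    · rw [ht]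
      simp [hab, hba]

/-- A nonzero ideal of the Lie algebra of the matrices of trace zero is everything. -/
theorem ideal_all (hC : Fintype.card C = 2) {P : Submodule F (Matrix C C F)}
    (hid : ∀ x ∈ P, ∀ y ∈ sl F C, y * x - x * y ∈ P) {s : Matrix C C F} (hs : s ∈ P)
    (hsl : s ∈ sl F C) (hs0 : s ≠ 0) : sl F C ≤ P := by
  obtain ⟨h, hh, e, he, f, hf, h1, h2, h3, _, hdec⟩ := std (F := F) hC
  have two : (2 : F) ≠ 0 := two_ne_zero
  have e_of_h : h ∈ P → e ∈ P := by
    intro hP
    have h4 := hid h hP e he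
    have h5 : e = (-(2 : F)⁻¹) • (e * h - h * e) := by
      have h6 : e * h - h * e = -((2 : F) • e) := by
        rw [← h1]
        abel
      rw [h6, smul_neg, neg_smul, neg_neg, smul_smul, inv_mul_cancel₀ two, one_smul]
    rw [h5]
    exact P.smul_mem _ h4
  have f_of_h : h ∈ P → f ∈ P := by
    intro hP
    have h4 := hid h hP f hf
    have h5 : f = (2 : F)⁻¹ • (f * h - h * f) := by
      have h6 : f * h - h * f = (2 : F) • f := by
        have : f * h - h * f = -(h * f - f * h) := by abel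
        rw [this, h2, neg_smul, neg_neg]
      rw [h6, smul_smul, inv_mul_cancel₀ two, one_smul]
    rw [h5]
    exact P.smul_mem _ h4
  have h_of_e : e ∈ P → h ∈ P := by
    intro hP
    have h4 := hid e hP f hf
    have h5 : h = -(f * e - e * f) := by
      rw [neg_sub, h3]
    rw [h5]
    exact P.neg_mem h4
  have h_of_f : f ∈ P → h ∈ P := by
    intro hP
    have h4 := hid f hP e he
    rwa [h3] at h4
  have hP : h ∈ P := by
    obtain ⟨p, q, r, hpqr⟩ := hdec s hsl
    have k1 : h * s - s * h = (2 * q) • e - (2 * r) • f := by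
      rw [hpqr]
      have : h * (p • h + q • e + r • f) - (p • h + q • e + r • f) * h =
          q • (h * e - e * h) + r • (h * f - f * h) := by
        simp only [mul_add, add_mul, mul_smul_comm, smul_mul_assoc, smul_sub]
        abel
      rw [this, h1, h2, smul_smul, smul_smul, mul_neg, neg_smul, sub_eq_add_neg, mul_comm q,
        mul_comm r]
    have k2 : h * (h * s - s * h) - (h * s - s * h) * h = (4 * q) • e + (4 * r) • f := by
      rw [k1]
      have : h * ((2 * q) • e - (2 * r) • f) - ((2 * q) • e - (2 * r) • f) * h =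
          (2 * q) • (h * e - e * h) - (2 * r) • (h * f - f * h) := by
        simp only [mul_sub, sub_mul, mul_smul_comm, smul_mul_assoc, smul_sub]
        abel
      rw [this, h1, h2, smul_smul, smul_smul, sub_eq_add_neg, ← neg_smul]
      congr 2 <;> ring
    have m1 : (2 * q) • e - (2 * r) • f ∈ P := by
      rw [← k1]
      exact hid s hs h hh
    have m2 : (4 * q) • e + (4 * r) • f ∈ P := by
      rw [← k2]
      exact hid _ (by rw [k1]; exact m1) h hh
    have m3 : (8 * q) • e ∈ P := by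
      have : (8 * q) • e = ((4 * q) • e + (4 * r) • f) + (2 : F) • ((2 * q) • e - (2 * r) • f) := by
        module
      rw [this]
      exact P.add_mem m2 (P.smul_mem _ m1)
    have m4 : (8 * r) • f ∈ P := by
      have : (8 * r) • f = ((4 * q) • e + (4 * r) • f) - (2 : F) • ((2 * q) • e - (2 * r) • f) := by
        module
      rw [this]
      exact P.sub_mem m2 (P.smul_mem _ m1)
    have eight : (8 : F) ≠ 0 := by norm_num
    by_cases hq : q = 0
    · by_cases hr : r = 0
      · rw [hq, hr, zero_smul, zero_smul, add_zero, add_zero] at hpqr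
        have hp : p ≠ 0 := by
          rintro rfl
          rw [zero_smul] at hpqr
          exact hs0 hpqr
        rw [hpqr] at hs
        exact (Submodule.smul_mem_iff _ hp).1 hs
      · exact h_of_f ((Submodule.smul_mem_iff _ (mul_ne_zero eight hr)).1 m4)
    · exact h_of_e ((Submodule.smul_mem_iff _ (mul_ne_zero eight hq)).1 m3)
  intro y hy
  obtain ⟨p, q, r, rfl⟩ := hdec y hy
  exact P.add_mem (P.add_mem (P.smul_mem _ hP) (P.smul_mem _ (e_of_h hP)))
    (P.smul_mem _ (f_of_h hP))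

end two

section fam

variable {F : Type} [Field F] [CharZero F] {J : Type} {B : J → Type} [∀ j, Fintype (B j)]
  [∀ j, DecidableEq (B j)] {M : Submodule F (∀ j, Matrix (B j) (B j) F)}

/-- Elements which are zero at finitely many indices. -/
theorem conc_gen [DecidableEq J] (hbr : ∀ x ∈ M, ∀ y ∈ M, x * y - y * x ∈ M) {i : J}
    (hi : Fintype.card (B i) = 2) (hsl : ∀ x ∈ M, x i ∈ sl F (B i))
    (hfull : ∀ y ∈ sl F (B i), ∃ z ∈ M, z i = y) (T : Finset J)
    (hT : ∀ t ∈ T, ∃ x ∈ M, x t = 0 ∧ x i ≠ 0) :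
    ∀ y ∈ sl F (B i), ∃ z ∈ M, z i = y ∧ ∀ t ∈ T, z t = 0 := by
  let P : Finset J → Submodule F (∀ j, Matrix (B j) (B j) F) := fun T =>
    { carrier := {z | z ∈ M ∧ ∀ t ∈ T, z t = 0}
      zero_mem' := ⟨Submodule.zero_mem _, fun _ _ => rfl⟩
      add_mem' := by
        rintro a b ⟨ha, ha'⟩ ⟨hb, hb'⟩
        exact ⟨Submodule.add_mem _ ha hb, fun t ht => by
          rw [Pi.add_apply, ha' t ht, hb' t ht, add_zero]⟩
      smul_mem' := by
        rintro r a ⟨ha, ha'⟩
        exact ⟨Submodule.smul_mem _ _ ha, fun t ht => by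
          rw [Pi.smul_apply, ha' t ht, smul_zero]⟩ }
  have hall : ∀ T : Finset J, (∃ x ∈ P T, x i ≠ 0) → ∀ y ∈ sl F (B i), ∃ z ∈ P T, z i = y := by
    rintro T ⟨x, hx, hx0⟩
    have h1 := ideal_all hi (P := (P T).map (LinearMap.proj i)) (by
      rintro _ ⟨a, ha, rfl⟩ y hy
      obtain ⟨z, hz, rfl⟩ := hfull y hy
      refine ⟨z * a - a * z, ⟨hbr z hz a ha.1, fun t ht => ?_⟩, rfl⟩
      change z t * a t - a t * z t = 0
      rw [ha.2 t ht, mul_zero, zero_mul, sub_zero]) (s := x i) ⟨x, hx, rfl⟩ (hsl x hx.1) hx0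
    intro y hy
    obtain ⟨z, hz, hzy⟩ := h1 hy
    exact ⟨z, hz, hzy⟩
  obtain ⟨h, hh, e, he, f, hf, h1, h2, h3, he0, hdec⟩ := std (F := F) hi
  have hne : ∀ T : Finset J, (∀ t ∈ T, ∃ x ∈ M, x t = 0 ∧ x i ≠ 0) → ∃ x ∈ P T, x i ≠ 0 := by
    intro T
    induction T using Finset.induction_on with
    | empty =>
      intro _
      obtain ⟨z, hz, hzs⟩ := hfull e he
      exact ⟨z, ⟨hz, fun t ht => absurd ht (Finset.notMem_empty t)⟩, by rw [hzs]; exact he0⟩
    | insert t T ht ih =>
      intro hT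
      obtain ⟨a, ha, ha'⟩ := hall T (ih fun t ht => hT t (Finset.mem_insert_of_mem ht)) h hh
      obtain ⟨x, hx, hxt, hxi⟩ := hT t (Finset.mem_insert_self t T)
      obtain ⟨b, hb, hb'⟩ := hall {t} ⟨x, ⟨hx, fun u hu => by
        rw [Finset.mem_singleton.1 hu, hxt]⟩, hxi⟩ e he
      refine ⟨a * b - b * a, ⟨hbr a ha.1 b hb.1, fun u hu => ?_⟩, ?_⟩
      · change a u * b u - b u * a u = 0
        rcases Finset.mem_insert.1 hu with rfl | hu
        · rw [hb.2 u (Finset.mem_singleton_self u), zero_mul, mul_zero, sub_zero]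
        · rw [ha.2 u hu, zero_mul, mul_zero, sub_zero]
      · change a i * b i - b i * a i ≠ 0
        rw [ha', hb', h1]
        exact smul_ne_zero two_ne_zero he0
  intro y hy
  obtain ⟨z, hz, hzy⟩ := hall T (hne T hT) y hy
  exact ⟨z, hz.1, hzy, hz.2⟩

/-- Polynomials in the commutator. -/
theorem exists_pol_gen (hbr : ∀ x ∈ M, ∀ y ∈ M, x * y - y * x ∈ M)
    {x z : ∀ j, Matrix (B j) (B j) F} (hx : x ∈ M) (hz : z ∈ M)
    (p : F[X]) : ∃ w ∈ M, ∀ j, w j = aeval (ad (x j)) p (z j) := by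
  induction p using Polynomial.induction_on with
  | C a =>
    refine ⟨a • z, Submodule.smul_mem _ _ hz, fun j => ?_⟩
    rw [aeval_C]
    rfl
  | add p q hp hq =>
    obtain ⟨w, hw, hw'⟩ := hp
    obtain ⟨v, hv, hv'⟩ := hq
    refine ⟨w + v, Submodule.add_mem _ hw hv, fun j => ?_⟩
    rw [map_add, LinearMap.add_apply, Pi.add_apply, hw', hv']
  | monomial n a hn =>
    obtain ⟨w, hw, hw'⟩ := hn
    refine ⟨x * w - w * x, hbr x hx w hw, fun j => ?_⟩
    have h1 : (C a * X ^ (n + 1) : F[X]) = X * (C a * X ^ n) := by ring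
    rw [h1, map_mul, aeval_X, Module.End.mul_apply, ← hw', ad_apply]
    rfl

/-- The bound for the number of the exceptional members of the family. -/
theorem bound_gen [IsAlgClosed F] [DecidableEq J] (hbr : ∀ x ∈ M, ∀ y ∈ M, x * y - y * x ∈ M)
    (o : J) {Q : Matrix (B o) (B o) F} (hQu : IsUnit Q)
    (hQ : ∀ x ∈ M, (x o)ᵀ * Q + Q * x o = 0) (S : Finset J)
    (h1 : ∀ i ∈ S, Fintype.card (B i) = 2) (hsl : ∀ i ∈ S, ∀ x ∈ M, x i ∈ sl F (B i))
    (hf : ∀ i ∈ S, ∀ y ∈ sl F (B i), ∃ z ∈ M, z i = y)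
    (h2 : ∀ i ∈ S, ∀ t ∈ S, i ≠ t → ∃ x ∈ M, x t = 0 ∧ x i ≠ 0)
    (h3 : ∀ i ∈ S, ∀ x ∈ M, x o = 0 → x i = 0) :
    2 * S.card ≤ Fintype.card (B o) := by
  classical
  have hhe : ∀ i ∈ S, ∃ h ∈ sl F (B i), ∃ e ∈ sl F (B i), e ≠ 0 ∧
      h * e - e * h = (2 : F) • e := fun i hi => exists_he (h1 i hi)
  choose! h hh e he he0 hhe using hhe
  have hconc : ∀ i ∈ S, ∃ z ∈ M, z i = h i ∧ ∀ t ∈ S.erase i, z t = 0 := by
    intro i hi
    refine conc_gen hbr (h1 i hi) (hsl i hi) (hf i hi) (S.erase i) (fun t ht => ?_) _ (hh i hi)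
    exact h2 i hi t (Finset.mem_of_mem_erase ht) (Ne.symm (Finset.ne_of_mem_erase ht))
  choose! Y hY hYi hYt using hconc
  obtain ⟨μ', hμ'⟩ := exists_indep F S.card
  obtain ⟨μ, hμ⟩ : ∃ μ : J → F, LinearIndependent ℚ (fun i : S => μ i) := by
    refine ⟨fun j => if h : j ∈ S then μ' (S.equivFin ⟨j, h⟩) else 0, ?_⟩
    convert hμ'.comp _ S.equivFin.injective using 1
    funext i
    simp
  -- the element of the Lie algebra
  set x : ∀ j, Matrix (B j) (B j) F := ∑ i ∈ S, μ i • Y i with hxdef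
  have hx : x ∈ M := Submodule.sum_mem _ fun i hi => Submodule.smul_mem _ _ (hY i hi)
  have hxi : ∀ i ∈ S, x i = μ i • h i := by
    intro i hi
    rw [hxdef, Finset.sum_apply, Finset.sum_eq_single i]
    · rw [Pi.smul_apply, hYi i hi]
    · intro t ht hti
      rw [Pi.smul_apply, hYt t ht i (Finset.mem_erase.2 ⟨Ne.symm hti, hi⟩), smul_zero]
    · intro h
      exact absurd hi h
  -- the eigenvalues
  have hev : ∀ i ∈ S, ∃ u : Matrix (B o) (B o) F, u ≠ 0 ∧
      x o * u - u * x o = (μ i * 2) • u := by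
    intro i hi
    obtain ⟨z, hz, hzi⟩ := hf i hi _ (he i hi)
    set p := minpoly F (ad (x o)) with hp
    obtain ⟨w, hw, hw'⟩ := exists_pol_gen hbr hx hz p
    have hwo : w o = 0 := by
      rw [hw', hp, minpoly.aeval, LinearMap.zero_apply]
    have hei : x i * e i - e i * x i = (μ i * 2) • e i := by
      rw [hxi i hi, smul_mul_assoc, mul_smul_comm, ← smul_sub, hhe i hi, smul_smul]
    have hwi : w i = p.eval (μ i * 2) • e i := by
      rw [hw', hzi, aeval_eig _ _ _ hei]
    have hp0 : p.eval (μ i * 2) = 0 := by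
      by_contra hne
      have h4 := h3 i hi w hw hwo
      rw [hwi] at h4
      exact he0 i hi ((smul_eq_zero.1 h4).resolve_left hne)
    have hroot : (ad (x o)).HasEigenvalue (μ i * 2) :=
      Module.End.hasEigenvalue_of_isRoot hp0
    obtain ⟨u, hu⟩ := hroot.exists_hasEigenvector
    exact ⟨u, hu.2, hu.apply_eq_smul⟩
  -- the count
  set E : Finset F := (x o).charpoly.roots.toFinset with hE
  have hneg : ∀ a ∈ E, -a ∈ E := by
    intro a ha
    rw [hE, Multiset.mem_toFinset] at ha ⊢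
    exact roots_neg hQu (hQ x hx) ha
  have hcard : E.card ≤ Fintype.card (B o) := by
    calc E.card ≤ Multiset.card (x o).charpoly.roots := Multiset.toFinset_card_le _
      _ ≤ (x o).charpoly.natDegree := Polynomial.card_roots' _
      _ = Fintype.card (B o) := Matrix.charpoly_natDegree_eq_dim _
  have hmem : ∀ i : S, μ i ∈ Submodule.span ℚ (E : Set F) := by
    rintro ⟨i, hi⟩
    obtain ⟨u, hu, hu'⟩ := hev i hi
    obtain ⟨a, ha, b, hb, hab⟩ := eig_diff _ _ _ hu hu'
    have ha' : a ∈ Submodule.span ℚ (E : Set F) :=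
      Submodule.subset_span (by rw [hE]; exact_mod_cast Multiset.mem_toFinset.2 ha)
    have hb' : b ∈ Submodule.span ℚ (E : Set F) :=
      Submodule.subset_span (by rw [hE]; exact_mod_cast Multiset.mem_toFinset.2 hb)
    have h4 : μ i * 2 ∈ Submodule.span ℚ (E : Set F) := by
      rw [← hab]
      exact Submodule.sub_mem _ ha' hb'
    have h5 : μ i = (2⁻¹ : ℚ) • (μ i * 2) := by
      rw [Rat.smul_def]
      push_cast
      field_simp
    change μ i ∈ _
    rw [h5]
    exact Submodule.smul_mem _ _ h4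
  have h6 := card_le_of_mem S (fun i => μ i) hμ E hmem
  have h7 := rank_half E hneg
  omega

/-- The exceptional set is finite, with at most half as many members as the dimension. -/
theorem exists_finset_gen [IsAlgClosed F] (hbr : ∀ x ∈ M, ∀ y ∈ M, x * y - y * x ∈ M) (o : J)
    {Q : Matrix (B o) (B o) F} (hQu : IsUnit Q) (hQ : ∀ x ∈ M, (x o)ᵀ * Q + Q * x o = 0)
    (h1 : ∀ i, i ≠ o → Fintype.card (B i) = 2) (hsl : ∀ i, i ≠ o → ∀ x ∈ M, x i ∈ sl F (B i))
    (hf : ∀ i, i ≠ o → ∀ y ∈ sl F (B i), ∃ z ∈ M, z i = y)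
    (h2 : ∀ i t, i ≠ o → t ≠ o → i ≠ t → ∃ x ∈ M, x t = 0 ∧ x i ≠ 0) :
    ∃ S : Finset J, o ∉ S ∧ 2 * S.card ≤ Fintype.card (B o) ∧
      (∀ i ∈ S, ∀ x ∈ M, x o = 0 → x i = 0) ∧
      ∀ i, i ≠ o → i ∉ S → ∃ x ∈ M, x o = 0 ∧ x i ≠ 0 := by
  classical
  have hb : ∀ S : Finset J, (∀ i ∈ S, i ≠ o ∧ ∀ x ∈ M, x o = 0 → x i = 0) →
      2 * S.card ≤ Fintype.card (B o) := by
    intro S hS
    exact bound_gen hbr o hQu hQ S (fun j hj => h1 j (hS j hj).1) (fun j hj => hsl j (hS j hj).1)
      (fun j hj => hf j (hS j hj).1)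
      (fun s hs t ht hst => h2 s t (hS s hs).1 (hS t ht).1 hst) (fun j hj => (hS j hj).2)
  have hfin : {i | i ≠ o ∧ ∀ x ∈ M, x o = 0 → x i = 0}.Finite := by
    by_contra hinf
    obtain ⟨S, hS, hcard⟩ := Set.Infinite.exists_subset_card_eq hinf (Fintype.card (B o) + 1)
    have h3 := hb S fun i hi => hS hi
    omega
  refine ⟨hfin.toFinset, ?_, hb _ fun i hi => hfin.mem_toFinset.1 hi,
    fun i hi => (hfin.mem_toFinset.1 hi).2, fun i hi hi' => ?_⟩
  · intro h
    exact (hfin.mem_toFinset.1 h).1 rfl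
  · by_contra hcon
    push Not at hcon
    exact hi' (hfin.mem_toFinset.2 ⟨hi, hcon⟩)

end fam

end Pool.Agent.R919.DR
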