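import Mathlib
import Pool.Agent.R919.DR.Def
import Pool.Agent.R919.DR.Gen
import Pool.Agent.R919.FE.Gal
import Pool.Agent.TH119.DR.Rat

/-!
# The Lie algebra generated by the conjugates of the logarithmic derivatives of the periods
-/

set_option linter.unusedSectionVars false
set_option autoImplicit false

namespace Pool.Agent.R919.DR

open Matrix Module Pool.Agent.R919 Pool.Agent.R919.GT

section der

variable {m n p : Type}

theorem map_mul_der [Fintype n] (δ : Derivation ℚ ℂ ℂ) (A : Matrix m n ℂ) (C : Matrix n p ℂ) :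
    (A * C).map δ = A.map δ * C + A * C.map δ := by
  ext i j
  rw [Matrix.map_apply, Matrix.mul_apply, map_sum, Matrix.add_apply, Matrix.mul_apply,
    Matrix.mul_apply, ← Finset.sum_add_distrib]
  refine Finset.sum_congr rfl fun k _ => ?_
  rw [Derivation.leibniz, Matrix.map_apply, Matrix.map_apply, smul_eq_mul, smul_eq_mul]
  ring

theorem map_rat (δ : Derivation ℚ ℂ ℂ) (Z : Matrix m n ℚ) :
    (Z.map (algebraMap ℚ ℂ)).map δ = 0 := by
  ext i j
  rw [Matrix.map_apply, Matrix.map_apply, Derivation.map_algebraMap]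
  rfl

theorem isAlg_of_der {A : Matrix m n ℂ} (h : ∀ δ : Derivation ℚ ℂ ℂ, A.map δ = 0) :
    IsAlg A := by
  intro a b
  by_contra hab
  obtain ⟨δ, hδ⟩ := Pool.Agent.TH119.DR.exists_deriv hab
  exact hδ (congrFun (congrFun (h δ) a) b)

variable {B B' : Type} [Fintype B] [DecidableEq B] [Fintype B'] [DecidableEq B']

theorem alg_conj {P : Matrix B B ℂ} {P' : Matrix B' B' ℂ} (hP : IsUnit P.det)
    (hP' : IsUnit P'.det) (Z : Matrix B' B ℚ)
    (h : ∀ δ : Derivation ℚ ℂ ℂ, (P'⁻¹ * P'.map δ) * Z.map (algebraMap ℚ ℂ) =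
      Z.map (algebraMap ℚ ℂ) * (P⁻¹ * P.map δ)) :
    IsAlg (P' * Z.map (algebraMap ℚ ℂ) * P⁻¹) := by
  refine isAlg_of_der fun δ => ?_
  set W := P' * Z.map (algebraMap ℚ ℂ) * P⁻¹ with hW
  have h1 : W * P = P' * Z.map (algebraMap ℚ ℂ) := by
    rw [hW, Matrix.mul_assoc, Matrix.nonsing_inv_mul _ hP, Matrix.mul_one]
  have h2 := congrArg (fun A => A.map δ) h1
  simp only [map_mul_der, map_rat, Matrix.mul_zero, add_zero] at h2
  have h3 : W * P.map δ = P'.map δ * Z.map (algebraMap ℚ ℂ) := by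
    calc W * P.map δ = P' * (Z.map (algebraMap ℚ ℂ) * (P⁻¹ * P.map δ)) := by
          rw [hW]
          simp only [Matrix.mul_assoc]
      _ = P' * (P'⁻¹ * P'.map δ * Z.map (algebraMap ℚ ℂ)) := by rw [h δ]
      _ = P'.map δ * Z.map (algebraMap ℚ ℂ) := by
        rw [← Matrix.mul_assoc, ← Matrix.mul_assoc, Matrix.mul_nonsing_inv _ hP', Matrix.one_mul]
  rw [h3] at h2
  have h4 : W.map δ * P = 0 := by
    simpa using h2
  calc W.map δ = W.map δ * P * P⁻¹ := by
        rw [Matrix.mul_assoc, Matrix.mul_nonsing_inv _ hP, Matrix.mul_one]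
    _ = 0 := by rw [h4, Matrix.zero_mul]

theorem vec_alg {P : Matrix B B ℂ} (hP : IsUnit P.det) (v : B → ℚ) (hv : v ≠ 0)
    (h : ∀ δ : Derivation ℚ ℂ ℂ, ∃ l : ℂ,
      (P⁻¹ * P.map δ) *ᵥ (fun a => (v a : ℂ)) = l • fun a => (v a : ℂ)) :
    ∃ (u : B → ℂ) (r : ℂ), (∀ a, IsAlgebraic ℚ (u a)) ∧ P *ᵥ (fun a => (v a : ℂ)) = r • u := by
  set w : B → ℂ := P *ᵥ (fun a => (v a : ℂ)) with hw
  have hw0 : w ≠ 0 := by
    intro h0
    apply hv
    have h1 : P⁻¹ *ᵥ w = fun a => (v a : ℂ) := by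
      rw [hw, Matrix.mulVec_mulVec, Matrix.nonsing_inv_mul _ hP, Matrix.one_mulVec]
    rw [h0, Matrix.mulVec_zero] at h1
    funext a
    have h2 := congrFun h1 a
    rw [Pi.zero_apply] at h2
    exact_mod_cast h2.symm
  obtain ⟨a, ha⟩ := Function.ne_iff.1 hw0
  rw [Pi.zero_apply] at ha
  refine ⟨fun b => w b / w a, w a, fun b => ?_, ?_⟩
  · by_contra hcon
    obtain ⟨δ, hδ⟩ := Pool.Agent.TH119.DR.exists_deriv hcon
    apply hδ
    obtain ⟨l, hl⟩ := h δ
    have h1 : ∀ c, δ (w c) = l * w c := by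
      intro c
      have h2 : δ (w c) = ((P.map δ) *ᵥ (fun a => (v a : ℂ))) c := by
        rw [hw, Matrix.mulVec, dotProduct, map_sum, Matrix.mulVec, dotProduct]
        refine Finset.sum_congr rfl fun d _ => ?_
        rw [Derivation.leibniz, Matrix.map_apply]
        have h3 : δ (v d : ℂ) = 0 := by
          have := Derivation.map_algebraMap δ (v d)
          exact this
        rw [h3, smul_zero, zero_add, smul_eq_mul, mul_comm]
      have h3 : (P.map δ) *ᵥ (fun a => (v a : ℂ)) = l • w := by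
        calc (P.map δ) *ᵥ (fun a => (v a : ℂ)) =
            P *ᵥ ((P⁻¹ * P.map δ) *ᵥ (fun a => (v a : ℂ))) := by
              rw [Matrix.mulVec_mulVec, ← Matrix.mul_assoc, Matrix.mul_nonsing_inv _ hP,
                Matrix.one_mul]
          _ = l • w := by rw [hl, Matrix.mulVec_smul]
      rw [h2, h3, Pi.smul_apply, smul_eq_mul]
    have h4 : w b = (w b / w a) * w a := by field_simp
    have h5 := congrArg δ h4
    rw [Derivation.leibniz, h1, h1, smul_eq_mul, smul_eq_mul] at h5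
    have h6 : w a * δ (w b / w a) = 0 := by
      have h7 : w b / w a * (l * w a) = l * w b := by field_simp
      rw [h7] at h5
      linear_combination -h5
    exact (mul_eq_zero.1 h6).resolve_left ha
  · funext b
    rw [Pi.smul_apply, smul_eq_mul]
    field_simp

end der

section fam

variable {J : Type} {B : J → Type} [∀ j, Fintype (B j)] [∀ j, DecidableEq (B j)]
  (P : ∀ j, Matrix (B j) (B j) ℂ)

/-- The conjugates of the logarithmic derivatives. -/
def IsGn (D : ∀ j, Matrix (B j) (B j) ℂ) : Prop :=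
  ∃ (σ : ℂ ≃+* ℂ) (δ : Derivation ℚ ℂ ℂ), D = FE.gal σ (fun j => (P j)⁻¹ * (P j).map δ)

/-- The Lie algebra generated by them. -/
def LL : Submodule ℂ (∀ j, Matrix (B j) (B j) ℂ) :=
  sInf {U | (∀ D, IsGn P D → D ∈ U) ∧ ∀ x ∈ U, ∀ y ∈ U, x * y - y * x ∈ U}

/-- The derived algebra. -/
def LD : Submodule ℂ (∀ j, Matrix (B j) (B j) ℂ) :=
  Submodule.span ℂ {z | ∃ x ∈ LL P, ∃ y ∈ LL P, z = x * y - y * x}

variable {P}

theorem LL_le {U : Submodule ℂ (∀ j, Matrix (B j) (B j) ℂ)} (h1 : ∀ D, IsGn P D → D ∈ U)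
    (h2 : ∀ x ∈ U, ∀ y ∈ U, x * y - y * x ∈ U) : LL P ≤ U := sInf_le ⟨h1, h2⟩

theorem gn_mem {D : ∀ j, Matrix (B j) (B j) ℂ} (h : IsGn P D) : D ∈ LL P := by
  rw [LL, Submodule.mem_sInf]
  rintro U ⟨h1, _⟩
  exact h1 D h

theorem LL_brk {x y : ∀ j, Matrix (B j) (B j) ℂ} (hx : x ∈ LL P) (hy : y ∈ LL P) :
    x * y - y * x ∈ LL P := by
  rw [LL, Submodule.mem_sInf] at *
  rintro U ⟨h1, h2⟩
  exact h2 x (hx U ⟨h1, h2⟩) y (hy U ⟨h1, h2⟩)

theorem LL_gal (σ : ℂ ≃+* ℂ) {x : ∀ j, Matrix (B j) (B j) ℂ} (hx : x ∈ LL P) :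
    FE.gal σ x ∈ LL P := by
  let U : Submodule ℂ (∀ j, Matrix (B j) (B j) ℂ) :=
    { carrier := {x | FE.gal σ x ∈ LL P}
      zero_mem' := by
        change FE.gal σ 0 ∈ LL P
        rw [FE.gal_zero]
        exact Submodule.zero_mem _
      add_mem' := by
        intro a b ha hb
        change FE.gal σ (a + b) ∈ LL P
        rw [FE.gal_add]
        exact Submodule.add_mem _ ha hb
      smul_mem' := by
        intro c a ha
        change FE.gal σ (c • a) ∈ LL P
        rw [FE.gal_smul]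
        exact Submodule.smul_mem _ _ ha }
  have h : LL P ≤ U := by
    refine LL_le ?_ (fun a ha b hb => ?_)
    · rintro _ ⟨τ, δ, rfl⟩
      refine gn_mem ⟨τ.trans σ, δ, ?_⟩
      rw [FE.gal_gal]
    · change FE.gal σ (a * b - b * a) ∈ LL P
      rw [FE.gal_sub, FE.gal_mul, FE.gal_mul]
      exact LL_brk ha hb
  exact h hx

theorem LD_le : LD P ≤ LL P := by
  rw [LD, Submodule.span_le]
  rintro _ ⟨x, hx, y, hy, rfl⟩
  exact LL_brk hx hy

theorem LD_brk' {x y : ∀ j, Matrix (B j) (B j) ℂ} (hx : x ∈ LL P) (hy : y ∈ LL P) :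
    x * y - y * x ∈ LD P := Submodule.subset_span ⟨x, hx, y, hy, rfl⟩

theorem LD_brk : ∀ x ∈ LD P, ∀ y ∈ LD P, x * y - y * x ∈ LD P :=
  fun _ hx _ hy => LD_brk' (LD_le hx) (LD_le hy)

theorem LD_sl (i : J) : ∀ x ∈ LD P, x i ∈ sl ℂ (B i) := by
  have h : LD P ≤ (sl ℂ (B i)).comap (LinearMap.proj i) := by
    rw [LD, Submodule.span_le]
    rintro _ ⟨a, _, b, _, rfl⟩
    exact brk_sl _ _
  exact fun x hx => h hx

/-- The basic element for the derivation `δ`. -/
theorem dl_mem (δ : Derivation ℚ ℂ ℂ) : (fun j => (P j)⁻¹ * (P j).map δ) ∈ LL P := by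
  refine gn_mem ⟨RingEquiv.refl ℂ, δ, ?_⟩
  funext j
  ext a b
  simp [FE.gal]

end fam

section rat

variable {m n : Type} [Fintype m] [Fintype n]

/-- A nonzero subspace which is stable under automorphisms contains a nonzero rational matrix. -/
theorem exists_rat (C : Submodule ℂ (Matrix m n ℂ))
    (hC : ∀ (σ : ℂ ≃+* ℂ), ∀ v ∈ C, v.map σ ∈ C) {x : Matrix m n ℂ} (hx : x ∈ C) (hx0 : x ≠ 0) :
    ∃ Z : Matrix m n ℚ, Z ≠ 0 ∧ Z.map (algebraMap ℚ ℂ) ∈ C := by
  by_contra hcon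
  push Not at hcon
  have h1 := FE.span_rat C hC
  apply hx0
  rw [h1] at hx
  have h2 : Submodule.span ℂ {w | w ∈ C ∧ ∃ u : Matrix m n ℚ, w = u.map (algebraMap ℚ ℂ)} ≤ ⊥ := by
    rw [Submodule.span_le]
    rintro _ ⟨hw, u, rfl⟩
    have h3 : u = 0 := by
      by_contra h0
      exact hcon u h0 hw
    rw [h3]
    change (0 : Matrix m n ℚ).map (algebraMap ℚ ℂ) = 0
    ext i j
    simp
  exact (Submodule.mem_bot ℂ).1 (h2 hx)

theorem rat_ne {Z : Matrix m n ℚ} (hZ : Z ≠ 0) : Z.map (algebraMap ℚ ℂ) ≠ 0 := by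
  intro h
  apply hZ
  ext i j
  have h1 := congrFun (congrFun h i) j
  rw [Matrix.map_apply, Matrix.zero_apply] at h1
  exact (map_eq_zero _).1 h1

end rat

end Pool.Agent.R919.DR
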