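import Mathlib
import Pool.Agent.R919.DR.Der
import Pool.Agent.R919.GT.Hyp

/-!
# The Lie algebra of the periods of an elliptic curve without complex multiplication
-/

set_option linter.unusedSectionVars false
set_option autoImplicit false

namespace Pool.Agent.R919.DR

open Matrix Module Pool.Agent.R919 Pool.Agent.R919.GT

section aux

variable {B : Type} [Fintype B] [DecidableEq B]

theorem tl_map (σ : ℂ ≃+* ℂ) (x : Matrix B B ℂ) : (tl ℂ B x).map σ = tl ℂ B (x.map σ) := by
  have h1 : trace (x.map σ) = σ (trace x) := by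
    rw [Matrix.trace, Matrix.trace, map_sum]
    rfl
  ext i j
  rw [Matrix.map_apply, tl_apply, tl_apply, h1]
  simp only [Matrix.sub_apply, Matrix.map_apply, Matrix.smul_apply, smul_eq_mul, map_sub, map_mul,
    map_inv₀, map_ofNat]
  by_cases h : i = j
  · rw [h, Matrix.one_apply_eq, map_one]
  · rw [Matrix.one_apply_ne h, map_zero]

theorem brk_tl (x y : Matrix B B ℂ) :
    tl ℂ B x * tl ℂ B y - tl ℂ B y * tl ℂ B x = x * y - y * x := by
  rw [tl_apply, tl_apply, smul_smul, smul_smul]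
  have h : ∀ (p q : ℂ), (x - p • 1) * (y - q • 1) - (y - q • 1) * (x - p • 1) =
      x * y - y * x := by
    intro p q
    simp only [sub_mul, mul_sub, smul_mul_assoc, mul_smul_comm, one_mul, mul_one, smul_sub]
    rw [smul_comm p q]
    abel
  exact h _ _

end aux

section fam

variable {J : Type} {B : J → Type} [∀ j, Fintype (B j)] [∀ j, DecidableEq (B j)]
  {P : ∀ j, Matrix (B j) (B j) ℂ} {ϖ : ℂ}

/-- A rational matrix which commutes with the parts of trace zero is scalar. -/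
theorem scalar_of {i : J} (hi : IsEllPeriod ϖ (P i)) (hP : IsUnit (P i).det)
    (Z : Matrix (B i) (B i) ℚ)
    (h : ∀ x ∈ LL P, Z.map (algebraMap ℚ ℂ) * tl ℂ (B i) (x i) =
      tl ℂ (B i) (x i) * Z.map (algebraMap ℚ ℂ)) : ∃ r : ℚ, Z = r • 1 := by
  refine hi.noCM Z (alg_conj hP hP Z fun δ => ?_)
  have h1 := h _ (dl_mem δ)
  rw [tl_apply, mul_sub, sub_mul, smul_smul, mul_smul_comm, smul_mul_assoc, mul_one,
    one_mul] at h1
  exact (sub_left_inj.1 h1).symm

theorem sl_zero {B : Type} [Fintype B] [DecidableEq B] (hB : Fintype.card B = 2)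
    {Z : Matrix B B ℚ} (hZ : Z ≠ 0) (htr : Z.map (algebraMap ℚ ℂ) ∈ sl ℂ B)
    (h : ∃ r : ℚ, Z = r • 1) : False := by
  obtain ⟨r, rfl⟩ := h
  have h1 := mem_sl.1 htr
  have h2 : ((r • (1 : Matrix B B ℚ)).map (algebraMap ℚ ℂ)) = (r : ℂ) • 1 := by
    ext a b
    rw [Matrix.map_apply, Matrix.smul_apply, Matrix.smul_apply, smul_eq_mul, smul_eq_mul, map_mul]
    congr 1
    by_cases hab : a = b
    · rw [hab, Matrix.one_apply_eq, Matrix.one_apply_eq, map_one]
    · rw [Matrix.one_apply_ne hab, Matrix.one_apply_ne hab, map_zero]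
  rw [h2, trace_smul, trace_one, hB, smul_eq_mul] at h1
  have h3 : (r : ℂ) = 0 := (mul_eq_zero.1 h1).resolve_right (by norm_num)
  have h4 : r = 0 := by exact_mod_cast h3
  exact hZ (by rw [h4, zero_smul])

theorem full {i : J} (hi : IsEllPeriod ϖ (P i)) (hP : IsUnit (P i).det) :
    ∀ y ∈ sl ℂ (B i), ∃ z ∈ LD P, z i = y := by
  classical
  have hB := hi.dim
  let U : Submodule ℂ (Matrix (B i) (B i) ℂ) := (LL P).map (LinearMap.proj i)
  let N : Submodule ℂ (Matrix (B i) (B i) ℂ) := U.map (tl ℂ (B i))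
  have hN : ∀ {y}, y ∈ N ↔ ∃ x ∈ LL P, tl ℂ (B i) (x i) = y := by
    intro y
    constructor
    · rintro ⟨_, ⟨x, hx, rfl⟩, rfl⟩
      exact ⟨x, hx, rfl⟩
    · rintro ⟨x, hx, rfl⟩
      exact ⟨x i, ⟨x, hx, rfl⟩, rfl⟩
  have hNsl : N ≤ sl ℂ (B i) := by
    intro y hy
    obtain ⟨x, _, rfl⟩ := hN.1 hy
    exact tl_sl hB _
  have hNgal : ∀ (σ : ℂ ≃+* ℂ), ∀ y ∈ N, y.map σ ∈ N := by
    intro σ y hy
    obtain ⟨x, hx, rfl⟩ := hN.1 hy
    exact hN.2 ⟨FE.gal σ x, LL_gal σ hx, (tl_map σ _).symm⟩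
  have hNbr : ∀ a ∈ N, ∀ b ∈ N, ∃ z ∈ LD P, z i = a * b - b * a := by
    intro a ha b hb
    obtain ⟨x, hx, rfl⟩ := hN.1 ha
    obtain ⟨y, hy, rfl⟩ := hN.1 hb
    exact ⟨x * y - y * x, LD_brk' hx hy, (brk_tl _ _).symm⟩
  have hNbr' : ∀ a ∈ N, ∀ b ∈ N, a * b - b * a ∈ N := by
    intro a ha b hb
    obtain ⟨z, hz, hzi⟩ := hNbr a ha b hb
    refine hN.2 ⟨z, LD_le hz, ?_⟩
    rw [hzi, tl_of_sl (brk_sl a b)]
  -- rational matrices which commute with `N`
  have hcomm : ∀ Z : Matrix (B i) (B i) ℚ, Z ≠ 0 → Z.map (algebraMap ℚ ℂ) ∈ sl ℂ (B i) →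
      (∀ y ∈ N, Z.map (algebraMap ℚ ℂ) * y = y * Z.map (algebraMap ℚ ℂ)) → False := by
    intro Z hZ htr hc
    exact sl_zero hB hZ htr (scalar_of hi hP Z fun x hx => hc _ (hN.2 ⟨x, hx, rfl⟩))
  have key : sl ℂ (B i) ≤ N := by
    by_contra hsl
    have hrank : finrank ℂ N ≤ 2 := by
      by_contra h2
      apply hsl
      have h3 := finrank_sl (F := ℂ) hB
      have h4 := Submodule.finrank_mono hNsl
      rw [Submodule.eq_of_le_of_finrank_eq hNsl (by omega)]
    -- two elements which do not commute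
    obtain ⟨s, hs, t, ht, hst⟩ : ∃ s ∈ N, ∃ t ∈ N, s * t - t * s ≠ 0 := by
      by_contra hcon
      push Not at hcon
      by_cases h0 : ∃ y ∈ N, y ≠ 0
      · obtain ⟨y, hy, hy0⟩ := h0
        obtain ⟨Z, hZ0, hZ⟩ := exists_rat N hNgal hy hy0
        exact hcomm Z hZ0 (hNsl hZ) fun y hy => sub_eq_zero.1 (hcon _ hZ y hy)
      · push Not at h0
        obtain ⟨a, b, hab, _⟩ := exists_two hB
        refine hcomm (Matrix.single a b 1) ?_ ?_ ?_
        · intro h
          have h1 := congrFun (congrFun h a) b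
          rw [Matrix.single_apply_same] at h1
          exact one_ne_zero h1
        · rw [mem_sl]
          have h1 : (Matrix.single a b (1 : ℚ)).map (algebraMap ℚ ℂ) = Matrix.single a b 1 := by
            ext c d
            rw [Matrix.map_apply, Matrix.single_apply, Matrix.single_apply]
            split_ifs
            · exact map_one _
            · exact map_zero _
          rw [h1, Matrix.trace_single_eq_of_ne _ _ _ hab]
        · intro y hy
          rw [h0 y hy, mul_zero, zero_mul]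
    set c := s * t - t * s with hc
    have hcN : c ∈ N := hNbr' s hs t ht
    have hs0 : s ≠ 0 := by
      rintro rfl
      apply hst
      rw [hc, zero_mul, mul_zero, sub_zero]
    have hli : LinearIndependent ℂ ![s, t] := by
      rw [LinearIndependent.pair_iff' hs0]
      intro r hr
      apply hst
      rw [hc, ← hr, mul_smul_comm, smul_mul_assoc, sub_self]
    have hNspan : N ≤ Submodule.span ℂ {s, t} := by
      have h1 : Submodule.span ℂ {s, t} ≤ N := by
        rw [Submodule.span_le]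
        rintro z (rfl | rfl)
        · exact hs
        · exact ht
      have h2 : finrank ℂ (Submodule.span ℂ ({s, t} : Set (Matrix (B i) (B i) ℂ))) = 2 := by
        have h3 := finrank_span_eq_card hli
        rw [Fintype.card_fin, Matrix.range_cons, Matrix.range_cons, Matrix.range_empty,
          Set.union_empty, Set.singleton_union] at h3
        exact h3
      exact (Submodule.eq_of_le_of_finrank_le h1 (by rw [h2]; exact hrank)).ge
    have hbr : ∀ x ∈ N, ∀ y ∈ N, ∃ r : ℂ, x * y - y * x = r • c := by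
      intro x hx y hy
      obtain ⟨a, b, rfl⟩ := Submodule.mem_span_pair.1 (hNspan hx)
      obtain ⟨a', b', rfl⟩ := Submodule.mem_span_pair.1 (hNspan hy)
      refine ⟨a * b' - b * a', ?_⟩
      rw [hc]
      simp only [add_mul, mul_add, smul_mul_smul_comm, smul_sub, sub_smul, mul_comm a' a,
        mul_comm b' b, mul_comm a' b, mul_comm b' a]
      abel
    obtain ⟨Z, hZ0, hZ⟩ := exists_rat (Submodule.span ℂ {c}) (by
      intro σ v hv
      obtain ⟨r, rfl⟩ := Submodule.mem_span_singleton.1 hv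
      obtain ⟨r', hr'⟩ := hbr _ (hNgal σ s hs) _ (hNgal σ t ht)
      have h1 : c.map σ = r' • c := by
        rw [← hr', hc]
        ext a b
        simp [Matrix.mul_apply, Matrix.map_apply, map_sum]
      have h2 : (r • c).map σ = σ r • c.map σ := by
        ext a b
        simp
      rw [h2, h1]
      exact Submodule.smul_mem _ _ (Submodule.smul_mem _ _ (Submodule.mem_span_singleton_self c)))
      (Submodule.mem_span_singleton_self c) hst
    obtain ⟨r, hr⟩ := Submodule.mem_span_singleton.1 hZ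
    have hzmap := rat_ne hZ0
    have hr0 : r ≠ 0 := by
      rintro rfl
      rw [zero_smul] at hr
      exact hzmap hr.symm
    have hzN : Z.map (algebraMap ℚ ℂ) ∈ N := by
      rw [← hr]
      exact Submodule.smul_mem _ _ hcN
    have hcz : c = r⁻¹ • Z.map (algebraMap ℚ ℂ) := by
      rw [← hr, smul_smul, inv_mul_cancel₀ hr0, one_smul]
    have hbrz : ∀ x ∈ N, ∃ l : ℂ, x * Z.map (algebraMap ℚ ℂ) - Z.map (algebraMap ℚ ℂ) * x =
        l • Z.map (algebraMap ℚ ℂ) := by
      intro x hx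
      obtain ⟨l, hl⟩ := hbr x hx _ hzN
      exact ⟨l * r⁻¹, by rw [hl, hcz, smul_smul]⟩
    obtain ⟨x, hx, hxz⟩ : ∃ x ∈ N, x * Z.map (algebraMap ℚ ℂ) - Z.map (algebraMap ℚ ℂ) * x ≠ 0 := by
      by_contra hcon
      push Not at hcon
      exact hcomm Z hZ0 (hNsl hzN) fun y hy => (sub_eq_zero.1 (hcon y hy)).symm
    obtain ⟨l, hl⟩ := hbrz x hx
    set z := Z.map (algebraMap ℚ ℂ) with hz
    have hl0 : l ≠ 0 := by
      rintro rfl
      rw [zero_smul] at hl
      exact hxz hl
    have htr : trace (z * z) = 0 := by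
      have h1 : trace ((x * z - z * x) * z) = 0 := by
        rw [sub_mul, trace_sub, mul_assoc z x z, Matrix.trace_mul_comm z (x * z), sub_self]
      rw [hl, smul_mul_assoc, trace_smul, smul_eq_mul] at h1
      exact (mul_eq_zero.1 h1).resolve_left hl0
    have hzz : z * z = 0 := by
      have h1 := ch0 hB (hNsl hzN)
      have h2 := htr
      rw [h1, trace_smul, trace_one, hB, smul_eq_mul] at h2
      have h3 : -z.det = 0 := (mul_eq_zero.1 h2).resolve_right (by norm_num)
      rw [h1, h3, zero_smul]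
    -- a rational vector
    obtain ⟨a₀, b₀, hab₀⟩ : ∃ a b, Z a b ≠ 0 := by
      by_contra hcon
      push Not at hcon
      exact hZ0 (Matrix.ext hcon)
    let v : B i → ℚ := fun a => Z a b₀
    have hv0 : v ≠ 0 := fun h => hab₀ (congrFun h a₀)
    have hvz : (fun a => (v a : ℂ)) = z *ᵥ Pi.single b₀ 1 := by
      rw [Matrix.mulVec_single_one]
      rfl
    have hvc0 : (fun a => (v a : ℂ)) ≠ 0 := by
      intro h
      have h1 := congrFun h a₀
      rw [Pi.zero_apply] at h1
      exact hab₀ (by exact_mod_cast h1)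
    have hzv : z *ᵥ (fun a => (v a : ℂ)) = (0 : ℂ) • fun a => (v a : ℂ) := by
      rw [hvz, Matrix.mulVec_mulVec, hzz, Matrix.zero_mulVec, zero_smul]
    obtain ⟨u, q, hu, hq⟩ := vec_alg hP v hv0 (by
      intro δ
      set D := (P i)⁻¹ * (P i).map δ with hD
      have hDN : tl ℂ (B i) D ∈ N := hN.2 ⟨_, dl_mem δ, rfl⟩
      obtain ⟨μ, hμ⟩ := hbrz _ hDN
      have h1 : D = tl ℂ (B i) D + (trace D * (2 : ℂ)⁻¹) • (1 : Matrix (B i) (B i) ℂ) := by
        rw [tl_apply, smul_smul]
        abel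
      obtain ⟨q, hq⟩ := eigenline hB (hNsl hzN) hzmap hvc0 hzv
        (w := z *ᵥ (tl ℂ (B i) D *ᵥ Pi.single b₀ 1)) (by
          rw [Matrix.mulVec_mulVec, hzz, Matrix.zero_mulVec, zero_smul])
      refine ⟨q + μ + trace D * (2 : ℂ)⁻¹, ?_⟩
      have h2 : tl ℂ (B i) D *ᵥ (fun a => (v a : ℂ)) = (q + μ) • fun a => (v a : ℂ) := by
        have h3 : tl ℂ (B i) D * z = z * tl ℂ (B i) D + μ • z := by
          rw [← hμ]
          abel
        rw [hvz, Matrix.mulVec_mulVec, h3, Matrix.add_mulVec, ← Matrix.mulVec_mulVec, hq,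
          Matrix.smul_mulVec, hvz, add_smul]
      conv_lhs => rw [h1]
      rw [Matrix.add_mulVec, h2, Matrix.smul_mulVec, Matrix.one_mulVec, ← add_smul])
    exact hi.simple v hv0 u hu q hq
  intro y hy
  obtain ⟨h, hh, e, he, f, hf, h1, h2, h3, _, hdec⟩ := std (F := ℂ) hB
  obtain ⟨p, q, r, rfl⟩ := hdec y hy
  obtain ⟨z1, hz1, hz1'⟩ := hNbr e (key he) f (key hf)
  obtain ⟨z2, hz2, hz2'⟩ := hNbr h (key hh) e (key he)
  obtain ⟨z3, hz3, hz3'⟩ := hNbr h (key hh) f (key hf)
  refine ⟨p • z1 + (q * 2⁻¹) • z2 + (r * (-2)⁻¹) • z3, ?_, ?_⟩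
  · exact Submodule.add_mem _ (Submodule.add_mem _ (Submodule.smul_mem _ _ hz1)
      (Submodule.smul_mem _ _ hz2)) (Submodule.smul_mem _ _ hz3)
  · rw [Pi.add_apply, Pi.add_apply, Pi.smul_apply, Pi.smul_apply, Pi.smul_apply, hz1', hz2', hz3',
      h3, h1, h2, smul_smul, smul_smul, mul_assoc, mul_assoc, inv_mul_cancel₀ two_ne_zero,
      inv_mul_cancel₀ (neg_ne_zero.2 two_ne_zero), mul_one, mul_one]

end fam

end Pool.Agent.R919.DR
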