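import Mathlib
import Pool.Agent.R919.DR.Ful

/-!
# Dependent pairs of elliptic curves are isogenous
-/

set_option linter.unusedSectionVars false
set_option autoImplicit false

namespace Pool.Agent.R919.DR

open Matrix Module Pool.Agent.R919 Pool.Agent.R919.GT

section trace

variable {B : Type} [Fintype B] [DecidableEq B]

theorem der_det (hB : Fintype.card B = 2) {P : Matrix B B ℂ} (hP : IsUnit P.det)
    (δ : Derivation ℚ ℂ ℂ) : δ P.det = trace (P⁻¹ * P.map δ) * P.det := by
  obtain ⟨a, b, hab, hall⟩ := exists_two hB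
  have hba := hab.symm
  set D := P⁻¹ * P.map δ with hD
  have h1 : P * D = P.map δ := by
    rw [hD, ← Matrix.mul_assoc, Matrix.mul_nonsing_inv _ hP, Matrix.one_mul]
  have hent : ∀ c d, δ (P c d) = P c a * D a d + P c b * D b d := by
    intro c d
    have h2 := congrFun (congrFun h1 c) d
    rw [Matrix.mul_apply, sum_two hab hall, Matrix.map_apply] at h2
    exact h2.symm
  have hdet : P.det = P a a * P b b - P a b * P b a := by
    have e : B ≃ Fin 2 := Fintype.equivFinOfCardEq hB
    let e2 : Fin 2 ≃ B :=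
      { toFun := ![a, b]
        invFun := fun c => if c = a then 0 else 1
        left_inv := by
          intro i
          fin_cases i
          · simp
          · simp [hba]
        right_inv := by
          intro c
          rcases hall c with rfl | rfl
          · simp
          · simp [hba] }
    rw [← Matrix.det_submatrix_equiv_self e2 P, Matrix.det_fin_two]
    rfl
  have htr : trace D = D a a + D b b := by
    rw [Matrix.trace, sum_two hab hall]
    rfl
  rw [htr, hdet, map_sub, Derivation.leibniz, Derivation.leibniz, hent, hent, hent, hent]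
  simp only [smul_eq_mul]
  ring

theorem trace_dl {ϖ : ℂ} {P : Matrix B B ℂ} (h : IsEllPeriod ϖ P) (hP : IsUnit P.det)
    (δ : Derivation ℚ ℂ ℂ) : trace (P⁻¹ * P.map δ) = δ ϖ / ϖ := by
  obtain ⟨a, ha0, ha, hdet⟩ := h.det
  have h1 := der_det h.dim hP δ
  have h2 := hP.ne_zero
  rw [hdet] at h1 h2
  have hϖ : ϖ ≠ 0 := right_ne_zero_of_mul h2
  rw [Derivation.leibniz, Pool.Agent.TH119.DR.deriv_alg δ ha, smul_zero, add_zero,
    smul_eq_mul] at h1
  field_simp
  have h3 : a * (trace (P⁻¹ * P.map δ) * ϖ - δ ϖ) = 0 := by linear_combination -h1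
  have h4 := sub_eq_zero.1 ((mul_eq_zero.1 h3).resolve_left ha0)
  linear_combination h4

end trace

theorem gal_int {m n : Type} [Fintype m] [Fintype n] (ρ : ℂ ≃+* ℂ) {A : Matrix m m ℂ}
    {T : Matrix m n ℂ} {C : Matrix n n ℂ} (h : A * T = T * C) :
    A.map ρ * T.map ρ = T.map ρ * C.map ρ := by
  ext a b
  have h1 := congrArg ρ (congrFun (congrFun h a) b)
  rw [Matrix.mul_apply, Matrix.mul_apply, map_sum, map_sum] at h1
  simp only [map_mul] at h1
  rw [Matrix.mul_apply, Matrix.mul_apply]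
  exact h1

section fam

variable {J : Type} {B : J → Type} [∀ j, Fintype (B j)] [∀ j, DecidableEq (B j)]
  {P : ∀ j, Matrix (B j) (B j) ℂ} {ϖ : ℂ}

theorem pair {i j : J} (hi : IsEllPeriod ϖ (P i)) (hj : IsEllPeriod ϖ (P j))
    (hPi : IsUnit (P i).det) (hPj : IsUnit (P j).det) (hn : NoHom (P j) (P i)) :
    ∃ x ∈ LD P, x j = 0 ∧ x i ≠ 0 := by
  have fi := full hi hPi
  have fj := full hj hPj
  by_contra hcon
  push Not at hcon
  -- the linear map
  let πj : LD P →ₗ[ℂ] sl ℂ (B j) := LinearMap.codRestrict (sl ℂ (B j))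
    ((LinearMap.proj j : (∀ j, Matrix (B j) (B j) ℂ) →ₗ[ℂ] _) ∘ₗ (LD P).subtype)
    (fun z => LD_sl j _ z.2)
  have hπj : LinearMap.range πj = ⊤ := by
    rw [LinearMap.range_eq_top]
    rintro ⟨y, hy⟩
    obtain ⟨z, hz, hzy⟩ := fj y hy
    exact ⟨⟨z, hz⟩, Subtype.ext hzy⟩
  obtain ⟨σ, hσ⟩ := πj.exists_rightInverse_of_surjective hπj
  have hσ' : ∀ y : sl ℂ (B j), (σ y : ∀ j, Matrix (B j) (B j) ℂ) j = y := by
    intro y
    have h := LinearMap.congr_fun hσ y
    exact congrArg Subtype.val h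
  let φ₀ : sl ℂ (B j) →ₗ[ℂ] Matrix (B i) (B i) ℂ :=
    (LinearMap.proj i : (∀ j, Matrix (B j) (B j) ℂ) →ₗ[ℂ] _) ∘ₗ (LD P).subtype ∘ₗ σ
  have hA : ∀ (z : ∀ j, Matrix (B j) (B j) ℂ) (hz : z ∈ LD P),
      φ₀ ⟨z j, LD_sl j _ hz⟩ = z i := by
    intro z hz
    have h1 : (σ ⟨z j, LD_sl j _ hz⟩ : ∀ j, Matrix (B j) (B j) ℂ) - z ∈ LD P :=
      Submodule.sub_mem _ (σ _).2 hz
    have h2 := hcon _ h1 (by
      change (σ ⟨z j, LD_sl j _ hz⟩ : ∀ j, Matrix (B j) (B j) ℂ) j - z j = 0
      rw [hσ', sub_self])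
    exact sub_eq_zero.1 h2
  obtain ⟨φ, hφ⟩ := LinearMap.exists_extend φ₀
  have hB : ∀ (z : ∀ j, Matrix (B j) (B j) ℂ), z ∈ LD P → φ (z j) = z i := by
    intro z hz
    have h := LinearMap.congr_fun hφ ⟨z j, LD_sl j _ hz⟩
    rw [hA z hz] at h
    exact h
  have hsl : ∀ x ∈ sl ℂ (B j), φ x ∈ sl ℂ (B i) := by
    intro x hx
    obtain ⟨z, hz, rfl⟩ := fj x hx
    rw [hB z hz]
    exact LD_sl i _ hz
  have hbr : ∀ x ∈ sl ℂ (B j), ∀ y ∈ sl ℂ (B j), φ (x * y - y * x) = φ x * φ y - φ y * φ x := by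
    intro x hx y hy
    obtain ⟨z, hz, rfl⟩ := fj x hx
    obtain ⟨w, hw, rfl⟩ := fj y hy
    rw [hB z hz, hB w hw]
    exact hB (z * w - w * z) (LD_brk _ hz _ hw)
  -- injectivity
  have hinj : ∀ x ∈ sl ℂ (B j), φ x = 0 → x = 0 := by
    let φ₁ : sl ℂ (B j) →ₗ[ℂ] sl ℂ (B i) := LinearMap.codRestrict (sl ℂ (B i))
      (φ ∘ₗ (sl ℂ (B j)).subtype) (fun x => hsl x.1 x.2)
    have hsurj : Function.Surjective φ₁ := by
      rintro ⟨y, hy⟩
      obtain ⟨z, hz, hzy⟩ := fi y hy
      exact ⟨⟨z j, LD_sl j _ hz⟩, Subtype.ext ((hB z hz).trans hzy)⟩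
    have hinj : Function.Injective φ₁ := by
      rw [LinearMap.injective_iff_surjective_of_finrank_eq_finrank]
      · exact hsurj
      · rw [finrank_sl hj.dim, finrank_sl hi.dim]
    intro x hx h0
    have h1 : φ₁ ⟨x, hx⟩ = φ₁ 0 := by
      rw [map_zero]
      exact Subtype.ext h0
    exact congrArg Subtype.val (hinj h1)
  -- the trace form
  have hind : ∀ x ∈ sl ℂ (B j), x ≠ 0 → ∀ y ∈ sl ℂ (B j), (∀ r : ℂ, y ≠ r • x) →
      trace (φ x * φ y) = trace (x * y) := by
    intro x hx hx0 y hy hxy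
    have h1 := congrArg φ (dbl hj.dim hx hy)
    rw [hbr x hx _ (brk_sl x y), hbr x hx y hy, dbl hi.dim (hsl x hx) (hsl y hy), map_sub,
      map_smul, map_smul] at h1
    have h2 : (4 * x.det - 4 * (φ x).det) • φ y +
        (2 * trace (x * y) - 2 * trace (φ x * φ y)) • φ x = 0 := by
      have e : (4 * x.det - 4 * (φ x).det) • φ y +
          (2 * trace (x * y) - 2 * trace (φ x * φ y)) • φ x =
          ((-4 * (φ x).det) • φ y - (2 * trace (φ x * φ y)) • φ x) -
            ((-4 * x.det) • φ y - (2 * trace (x * y)) • φ x) := by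
        module
      rw [e, h1, sub_self]
    have hφx : φ x ≠ 0 := fun h => hx0 (hinj x hx h)
    have hli : LinearIndependent ℂ ![φ x, φ y] := by
      rw [LinearIndependent.pair_iff' hφx]
      intro r hr
      apply hxy r
      have h3 : φ (y - r • x) = 0 := by rw [map_sub, map_smul, hr, sub_self]
      exact sub_eq_zero.1 (hinj _ (Submodule.sub_mem _ hy (Submodule.smul_mem _ r hx)) h3)
    have h3 := LinearIndependent.pair_iff.1 hli (2 * trace (x * y) - 2 * trace (φ x * φ y))
      (4 * x.det - 4 * (φ x).det) (by rw [add_comm]; exact h2)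
    have h4 : (2 : ℂ) * (trace (x * y) - trace (φ x * φ y)) = 0 := by linear_combination h3.1
    have h5 := (mul_eq_zero.1 h4).resolve_left (by norm_num)
    exact (sub_eq_zero.1 h5).symm
  obtain ⟨h, hh, e, he, f, hf, hhe, hhf, hef, he0, hdec⟩ := std (F := ℂ) hj.dim
  have hh0 : h ≠ 0 := by
    rintro rfl
    rw [zero_mul, mul_zero, sub_zero] at hhe
    exact (smul_ne_zero two_ne_zero he0) hhe.symm
  have htr : ∀ x ∈ sl ℂ (B j), ∀ y ∈ sl ℂ (B j), trace (φ x * φ y) = trace (x * y) := by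
    intro x hx y hy
    by_cases hx0 : x = 0
    · rw [hx0, map_zero, zero_mul, zero_mul, trace_zero, trace_zero]
    · by_cases hxy : ∃ r : ℂ, y = r • x
      · obtain ⟨r, rfl⟩ := hxy
        -- choose an element which is not a multiple of `x`
        obtain ⟨w, hw, hwx⟩ : ∃ w ∈ sl ℂ (B j), ∀ r : ℂ, w ≠ r • x := by
          by_contra hc
          push Not at hc
          obtain ⟨p, hp⟩ := hc h hh
          obtain ⟨q, hq⟩ := hc e he
          have h6 : h * e - e * h = 0 := by
            rw [hp, hq, smul_mul_smul_comm, smul_mul_smul_comm, mul_comm p q, sub_self]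
          rw [hhe] at h6
          exact (smul_ne_zero two_ne_zero he0) h6
        have h1 := hind x hx hx0 w hw hwx
        have h2 := hind x hx hx0 (w + x) (Submodule.add_mem _ hw hx) (by
          intro q hq
          apply hwx (q - 1)
          rw [sub_smul, one_smul, ← hq]
          abel)
        rw [map_add, mul_add, trace_add, mul_add, trace_add, h1] at h2
        have h3 := add_left_cancel h2
        rw [map_smul, mul_smul_comm, mul_smul_comm, trace_smul, trace_smul, h3]
      · push Not at hxy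
        exact hind x hx hx0 y hy hxy
  obtain ⟨ψ, hψ1, hψφ, hψ⟩ := extend_hom hj.dim hi.dim φ hsl hbr htr
  obtain ⟨T, T', hTT', hT'T, hT⟩ := exists_intertwiner hj.dim hi.dim ψ hψ1 hψ
  have hTy : ∀ y ∈ sl ℂ (B j), φ y * T = T * y := by
    intro y hy
    rw [← hψφ y hy, hT]
  have hTy' : ∀ y ∈ sl ℂ (B j), T' * φ y = y * T' := by
    intro y hy
    calc T' * φ y = T' * (φ y * T) * T' := by
          rw [Matrix.mul_assoc, Matrix.mul_assoc, hTT', Matrix.mul_one]
      _ = y * T' := by rw [hTy y hy, ← Matrix.mul_assoc, hT'T, Matrix.one_mul]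
  have hT0 : T ≠ 0 := by
    intro h
    rw [h, Matrix.zero_mul] at hTT'
    have h4 : trace (1 : Matrix (B i) (B i) ℂ) = 0 := by rw [← hTT', trace_zero]
    rw [trace_one, hi.dim] at h4
    exact two_ne_zero h4
  -- all elements of the Lie algebra
  have hW : ∀ x ∈ LL P, ∃ r : ℂ, x i * T - T * x j = r • T := by
    intro x hx
    set W := T' * (x i * T - T * x j) with hWdef
    have hc : ∀ y ∈ sl ℂ (B j), W * y = y * W := by
      intro y hy
      obtain ⟨z, hz, rfl⟩ := fj y hy
      have h1 := hB (x * z - z * x) (LD_brk' hx (LD_le hz))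
      change φ (x j * z j - z j * x j) = x i * z i - z i * x i at h1
      have h2 := hTy _ (brk_sl (x j) (z j))
      rw [h1] at h2
      have h3 : z i * T = T * z j := by rw [← hB z hz, hTy _ (LD_sl j _ hz)]
      have h4 : (x i * T - T * x j) * z j = z i * (x i * T - T * x j) := by
        calc (x i * T - T * x j) * z j = x i * (T * z j) - T * x j * z j := by
              rw [Matrix.sub_mul, Matrix.mul_assoc]
          _ = x i * (z i * T) - T * x j * z j := by rw [h3]
          _ = (x i * z i - z i * x i) * T + z i * (x i * T) - T * x j * z j := by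
              simp only [Matrix.sub_mul, Matrix.mul_assoc]
              abel
          _ = T * (x j * z j - z j * x j) + z i * (x i * T) - T * x j * z j := by rw [h2]
          _ = z i * (x i * T) - T * z j * x j := by
              simp only [Matrix.mul_sub, Matrix.mul_assoc]
              abel
          _ = z i * (x i * T - T * x j) := by
              rw [← h3, Matrix.mul_sub, Matrix.mul_assoc]
      rw [hWdef, Matrix.mul_assoc, h4, ← Matrix.mul_assoc, ← hB z hz, hTy' _ (LD_sl j _ hz),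
        Matrix.mul_assoc]
    have h5 : tl ℂ (B j) W = 0 := by
      by_contra hne
      have hcc : ∀ y ∈ sl ℂ (B j), tl ℂ (B j) W * y = y * tl ℂ (B j) W := by
        intro y hy
        rw [tl_apply, smul_smul, sub_mul, mul_sub, hc y hy, smul_mul_assoc, mul_smul_comm,
          one_mul, mul_one]
      obtain ⟨p, hp⟩ := centr hj.dim (tl_sl hj.dim W) hh hne (hcc h hh)
      obtain ⟨q, hq⟩ := centr hj.dim (tl_sl hj.dim W) he hne (hcc e he)
      have h6 : h * e - e * h = 0 := by
        rw [hp, hq, smul_mul_smul_comm, smul_mul_smul_comm, mul_comm p q, sub_self]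
      rw [hhe] at h6
      exact (smul_ne_zero two_ne_zero he0) h6
    rw [tl_apply, smul_smul, sub_eq_zero] at h5
    refine ⟨trace W * (2 : ℂ)⁻¹, ?_⟩
    calc x i * T - T * x j = T * W := by
          rw [hWdef, ← Matrix.mul_assoc, hTT', Matrix.one_mul]
      _ = (trace W * (2 : ℂ)⁻¹) • T := by
          conv_lhs => rw [h5]
          rw [Matrix.mul_smul, Matrix.mul_one]
  -- the generators
  have hgen : ∀ (τ : ℂ ≃+* ℂ) (δ : Derivation ℚ ℂ ℂ),
      (((P i)⁻¹ * (P i).map δ).map τ) * T = T * (((P j)⁻¹ * (P j).map δ).map τ) := by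
    intro τ δ
    obtain ⟨r, hr⟩ := hW (FE.gal τ (fun j => (P j)⁻¹ * (P j).map δ)) (gn_mem ⟨τ, δ, rfl⟩)
    change ((P i)⁻¹ * (P i).map δ).map τ * T - T * ((P j)⁻¹ * (P j).map δ).map τ = r • T at hr
    have h1 : trace (T' * (((P i)⁻¹ * (P i).map δ).map τ * T -
        T * ((P j)⁻¹ * (P j).map δ).map τ)) = trace (T' * (r • T)) := by rw [hr]
    have h2 : ∀ {C : Type} [Fintype C] (A : Matrix C C ℂ), trace (A.map τ) = τ (trace A) := by
      intro C _ A
      rw [Matrix.trace, Matrix.trace, map_sum]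
      rfl
    rw [Matrix.mul_sub, trace_sub, Matrix.trace_mul_comm, Matrix.mul_assoc, hTT', Matrix.mul_one,
      ← Matrix.mul_assoc, hT'T, Matrix.one_mul, h2, h2, trace_dl hi hPi, trace_dl hj hPj, sub_self,
      Matrix.mul_smul, hT'T, trace_smul, trace_one, hj.dim, smul_eq_mul] at h1
    have h3 : r = 0 := (mul_eq_zero.1 h1.symm).resolve_right (by norm_num)
    rw [h3, zero_smul, sub_eq_zero] at hr
    exact hr
  let 𝒯 : Submodule ℂ (Matrix (B i) (B j) ℂ) :=
    { carrier := {T | ∀ (τ : ℂ ≃+* ℂ) (δ : Derivation ℚ ℂ ℂ),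
        (((P i)⁻¹ * (P i).map δ).map τ) * T = T * (((P j)⁻¹ * (P j).map δ).map τ)}
      zero_mem' := by
        intro τ δ
        rw [Matrix.mul_zero, Matrix.zero_mul]
      add_mem' := by
        intro a b ha hb τ δ
        rw [Matrix.mul_add, Matrix.add_mul, ha τ δ, hb τ δ]
      smul_mem' := by
        intro r a ha τ δ
        rw [Matrix.mul_smul, Matrix.smul_mul, ha τ δ] }
  obtain ⟨Z, hZ0, hZ⟩ := exists_rat 𝒯 (by
    intro ρ T hT τ δ
    have h1 := gal_int ρ (hT (τ.trans ρ.symm) δ)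
    have h2 : ∀ {C : Type} (A : Matrix C C ℂ), (A.map (τ.trans ρ.symm)).map ρ = A.map τ := by
      intro C A
      ext a b
      simp
    rw [h2, h2] at h1
    exact h1) (x := T) hgen hT0
  apply hZ0
  refine hn Z (alg_conj hPj hPi Z fun δ => ?_)
  have h1 := hZ (RingEquiv.refl ℂ) δ
  have h2 : ∀ {C : Type} (A : Matrix C C ℂ), A.map (RingEquiv.refl ℂ) = A := by
    intro C A
    ext a b
    simp
  rw [h2, h2] at h1
  exact h1

end fam

end Pool.Agent.R919.DR
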