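import Mathlib
import Pool.Agent.R919.DR.Par
import Pool.Agent.R919.GT.Fld

/-!
# De Rham-Betti classes on products
-/

set_option linter.unusedSectionVars false
set_option autoImplicit false

namespace Pool.Agent.R919.DR

open Matrix Module Pool.Agent.R919 Pool.Agent.R919.GT

section der

variable {κ : Type} [Fintype κ] [DecidableEq κ] {A : κ → Type}
  [∀ x, Fintype (A x)] [∀ x, DecidableEq (A x)]

/-- The derivative of a tensor. -/
theorem der_act1 (δ : Derivation ℚ ℂ ℂ) (x : κ) (M : Matrix (A x) (A x) ℂ)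
    (c : (∀ x, A x) → ℂ) : (fun I => δ (act1 x M c I)) =
      act1 x (M.map δ) c + act1 x M (fun I => δ (c I)) := by
  funext I
  rw [Pi.add_apply, act1_apply, act1_apply, act1_apply, map_sum, ← Finset.sum_add_distrib]
  refine Finset.sum_congr rfl fun b _ => ?_
  rw [Derivation.leibniz, Matrix.map_apply, smul_eq_mul, smul_eq_mul]
  ring

theorem der_tact_set (δ : Derivation ℚ ℂ ℂ) (N D : ∀ x, Matrix (A x) (A x) ℂ)
    (h : ∀ x, N x * D x = (N x).map δ) (s : Finset κ) (c : (∀ x, A x) → ℂ) :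
    (fun I => δ (tact (fun y => if y ∈ s then N y else 1) c I)) =
      tact (fun y => if y ∈ s then N y else 1) (∑ x ∈ s, act1 x (D x) c) +
        tact (fun y => if y ∈ s then N y else 1) (fun I => δ (c I)) := by
  induction s using Finset.induction_on with
  | empty =>
    simp only [Finset.notMem_empty, if_false, Finset.sum_empty, map_zero, zero_add]
    rw [tact_one]
    rfl
  | insert x s hx ih =>
    rw [tact_insert N hx]
    simp only [Module.End.mul_apply]
    rw [der_act1, ih, ← h x, map_mul, Module.End.mul_apply, Finset.sum_insert hx, map_add, map_add,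
      map_add, ← add_assoc]
    congr 2
    have h1 := tact_comm_single (fun y => if y ∈ s then N y else 1) x (D x) (by
      rw [if_neg hx, one_mul, mul_one])
    have h2 := LinearMap.congr_fun h1 c
    rw [Module.End.mul_apply, Module.End.mul_apply] at h2
    rw [h2]

theorem der_tact (δ : Derivation ℚ ℂ ℂ) (N D : ∀ x, Matrix (A x) (A x) ℂ)
    (h : ∀ x, N x * D x = (N x).map δ) (c : (∀ x, A x) → ℂ) :
    (fun I => δ (tact N c I)) = tact N (act D c) + tact N (fun I => δ (c I)) := by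
  have h1 := der_tact_set δ N D h Finset.univ c
  simp only [Finset.mem_univ, if_true] at h1
  rw [h1, act, LinearMap.sum_apply]

/-- The logarithmic derivative of the matrix acts on a class by a scalar. -/
theorem act_der (δ : Derivation ℚ ℂ ℂ) {ϖ : ℂ} (hϖ : ϖ ≠ 0) {m : ℤ}
    (N : ∀ x, Matrix (A x) (A x) ℂ) (hN : ∀ x, IsUnit (N x).det) (c : (∀ x, A x) → ℂ)
    (hc : ∀ I, δ (c I) = 0) (h : ∀ I, IsAlgebraic ℚ (ϖ ^ (-m) * tact N c I)) :
    act (fun x => (N x)⁻¹ * (N x).map δ) c = (m * (δ ϖ / ϖ)) • c := by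
  have h1 := der_tact δ N (fun x => (N x)⁻¹ * (N x).map δ) (fun x => by
    rw [← Matrix.mul_assoc, Matrix.mul_nonsing_inv _ (hN x), Matrix.one_mul]) c
  have h0 : (fun I => δ (c I)) = 0 := funext hc
  rw [h0, map_zero, add_zero] at h1
  have h2 : tact N (act (fun x => (N x)⁻¹ * (N x).map δ) c) = (m * (δ ϖ / ϖ)) • tact N c := by
    rw [← h1]
    funext I
    have h3 := Pool.Agent.TH119.DR.deriv_alg δ (h I)
    rw [Derivation.leibniz, Derivation.leibniz_zpow] at h3
    simp only [smul_eq_mul, zsmul_eq_mul] at h3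
    rw [Pi.smul_apply, smul_eq_mul]
    have h4 : ϖ ^ (-m) ≠ 0 := zpow_ne_zero _ hϖ
    have h5 : ϖ ^ (-m - 1) = ϖ ^ (-m) / ϖ := by rw [zpow_sub_one₀ hϖ]; rfl
    rw [h5] at h3
    have h6 : ϖ ^ (-m) * (δ (tact N c I) - m * (δ ϖ / ϖ) * tact N c I) = 0 := by
      rw [← h3]
      push_cast
      field_simp
      ring
    exact sub_eq_zero.1 ((mul_eq_zero.1 h6).resolve_left h4)
  have h3 := congrArg (tact fun x => (N x)⁻¹) h2
  have h4 : (fun x => (N x)⁻¹ * N x) = fun x => (1 : Matrix (A x) (A x) ℂ) := by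
    funext x
    exact Matrix.nonsing_inv_mul _ (hN x)
  have h5 : ∀ v, tact (fun x => (N x)⁻¹) (tact N v) = v := by
    intro v
    rw [← Module.End.mul_apply, ← tact_mul, h4, tact_one]
    rfl
  rwa [map_smul, h5, h5] at h3

end der

section fam

variable {J : Type} [DecidableEq J] {B : J → Type} [∀ j, Fintype (B j)]
  [∀ j, DecidableEq (B j)] {P : ∀ j, Matrix (B j) (B j) ℂ} {ϖ : ℂ} {κ : Type} [Fintype κ]
  [DecidableEq κ] (f : κ → J)

/-- Complexification of a rational tensor. -/
def cc {Ω : Type} (c : Ω → ℚ) : Ω → ℂ := fun I => (c I : ℂ)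

theorem mem_drb {m : ℤ} {c : (∀ x, B (f x)) → ℚ} : c ∈ drbClasses ϖ P f m ↔
    ∀ I, IsAlgebraic ℚ (ϖ ^ (-m) * tact (fun x => P (f x)) (cc c) I) := Iff.rfl

theorem mem_drbOf {j : J} {m : ℤ} {c : (∀ x, B (f x)) → ℚ} : c ∈ drbClassesOf ϖ P f j m ↔
    (∀ I I', (∀ x, f x = j → I x = I' x) → c I = c I') ∧
    ∀ I, IsAlgebraic ℚ (ϖ ^ (-m) * tact (fun x => if f x = j then P (f x) else 1) (cc c) I) :=
  Iff.rfl

/-- The elements of the Lie algebra act by scalars. -/
theorem act_LL (hϖ : ϖ ≠ 0) (hP : ∀ j, IsUnit (P j).det) {m : ℤ} {c : (∀ x, B (f x)) → ℚ}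
    (hc : c ∈ drbClasses ϖ P f m) {z : ∀ j, Matrix (B j) (B j) ℂ} (hz : z ∈ LL P) :
    ∃ s : ℂ, act (fun x => z (f x)) (cc c) = s • cc c := by
  let U : Submodule ℂ (∀ j, Matrix (B j) (B j) ℂ) :=
    { carrier := {z | ∃ s : ℂ, act (fun x => z (f x)) (cc c) = s • cc c}
      zero_mem' := by
        refine ⟨0, ?_⟩
        have h := act_smul (0 : ℂ) (fun x => (0 : Matrix (B (f x)) (B (f x)) ℂ))
        simp only [smul_zero] at h
        change act (fun x => (0 : Matrix (B (f x)) (B (f x)) ℂ)) (cc c) = _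
        rw [h, zero_smul, zero_smul]
        rfl
      add_mem' := by
        rintro a b ⟨s, hs⟩ ⟨t, ht⟩
        refine ⟨s + t, ?_⟩
        change act (fun x => a (f x) + b (f x)) (cc c) = _
        rw [act_add, LinearMap.add_apply, hs, ht, add_smul]
      smul_mem' := by
        rintro r a ⟨s, hs⟩
        refine ⟨r * s, ?_⟩
        change act (fun x => r • a (f x)) (cc c) = _
        rw [act_smul, LinearMap.smul_apply, hs, mul_smul] }
  have h : LL P ≤ U := by
    refine LL_le ?_ ?_
    · rintro _ ⟨σ, δ, rfl⟩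
      have h1 := act_der δ hϖ (m := m) (fun x => P (f x)) (fun x => hP (f x)) (cc c)
        (fun I => Derivation.map_algebraMap δ (c I)) hc
      refine ⟨σ (m * (δ ϖ / ϖ)), ?_⟩
      funext I
      have h2 := congrArg σ (congrFun h1 I)
      rw [act, LinearMap.sum_apply, Finset.sum_apply, map_sum] at h2
      rw [act, LinearMap.sum_apply, Finset.sum_apply]
      have h3 : ∀ a : ℚ, σ (a : ℂ) = (a : ℂ) := fun a => map_ratCast σ a
      refine Eq.trans ?_ (h2.trans ?_)
      · refine Finset.sum_congr rfl fun x _ => ?_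
        rw [act1_apply, act1_apply, map_sum]
        refine Finset.sum_congr rfl fun b _ => ?_
        rw [map_mul]
        congr 1
        exact (h3 _).symm
      · rw [Pi.smul_apply, Pi.smul_apply, smul_eq_mul, smul_eq_mul, map_mul]
        congr 1
        exact h3 _
    · rintro a ⟨s, hs⟩ b ⟨t, ht⟩
      refine ⟨0, ?_⟩
      change act (fun x => a (f x) * b (f x) - b (f x) * a (f x)) (cc c) = _
      rw [act_brk, LinearMap.sub_apply, Module.End.mul_apply, Module.End.mul_apply, hs, ht,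
        map_smul, map_smul, hs, ht, smul_comm, sub_self, zero_smul]
  exact h hz

theorem act_LD (hϖ : ϖ ≠ 0) (hP : ∀ j, IsUnit (P j).det) {m : ℤ} {c : (∀ x, B (f x)) → ℚ}
    (hc : c ∈ drbClasses ϖ P f m) {z : ∀ j, Matrix (B j) (B j) ℂ} (hz : z ∈ LD P) :
    act (fun x => z (f x)) (cc c) = 0 := by
  let U : Submodule ℂ (∀ j, Matrix (B j) (B j) ℂ) :=
    { carrier := {z | act (fun x => z (f x)) (cc c) = 0}
      zero_mem' := by
        have h := act_smul (0 : ℂ) (fun x => (0 : Matrix (B (f x)) (B (f x)) ℂ))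
        simp only [smul_zero] at h
        change act (fun x => (0 : Matrix (B (f x)) (B (f x)) ℂ)) (cc c) = _
        rw [h, zero_smul]
        rfl
      add_mem' := by
        intro a b ha hb
        change act (fun x => a (f x) + b (f x)) (cc c) = _
        rw [act_add, LinearMap.add_apply, show act (fun x => a (f x)) (cc c) = 0 from ha,
          show act (fun x => b (f x)) (cc c) = 0 from hb, add_zero]
      smul_mem' := by
        intro r a ha
        change act (fun x => r • a (f x)) (cc c) = _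
        rw [act_smul, LinearMap.smul_apply, show act (fun x => a (f x)) (cc c) = 0 from ha,
          smul_zero] }
  have h : LD P ≤ U := by
    rw [LD, Submodule.span_le]
    rintro _ ⟨a, ha, b, hb, rfl⟩
    obtain ⟨s, hs⟩ := act_LL f hϖ hP hc ha
    obtain ⟨t, ht⟩ := act_LL f hϖ hP hc hb
    change act (fun x => a (f x) * b (f x) - b (f x) * a (f x)) (cc c) = _
    rw [act_brk, LinearMap.sub_apply, Module.End.mul_apply, Module.End.mul_apply, hs, ht,
      map_smul, map_smul, hs, ht, smul_comm, sub_self]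
  exact h hz

end fam

section form

variable {J : Type} {B : J → Type} [∀ j, Fintype (B j)]
  [∀ j, DecidableEq (B j)] {P : ∀ j, Matrix (B j) (B j) ℂ} {ϖ : ℂ}

/-- The form as seen by the Lie algebra. -/
theorem form_LL (hϖ : ϖ ≠ 0) (o : J) (hP : IsUnit (P o).det) (Q : Matrix (B o) (B o) ℚ)
    (R : Matrix (B o) (B o) ℂ) (hR : IsAlg R) (w : ℤ)
    (hQ : (P o)ᵀ * R * P o = ϖ ^ w • Q.map (algebraMap ℚ ℂ)) {x : ∀ j, Matrix (B j) (B j) ℂ}
    (hx : x ∈ LL P) : ∃ s : ℂ, (x o)ᵀ * Q.map (algebraMap ℚ ℂ) + Q.map (algebraMap ℚ ℂ) * x o =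
      s • Q.map (algebraMap ℚ ℂ) := by
  set Q' := Q.map (algebraMap ℚ ℂ) with hQ'
  let U : Submodule ℂ (∀ j, Matrix (B j) (B j) ℂ) :=
    { carrier := {x | ∃ s : ℂ, (x o)ᵀ * Q' + Q' * x o = s • Q'}
      zero_mem' := by
        refine ⟨0, ?_⟩
        change ((0 : Matrix (B o) (B o) ℂ))ᵀ * Q' + Q' * 0 = _
        rw [transpose_zero, zero_mul, mul_zero, add_zero, zero_smul]
      add_mem' := by
        rintro a b ⟨s, hs⟩ ⟨t, ht⟩
        refine ⟨s + t, ?_⟩
        change (a o + b o)ᵀ * Q' + Q' * (a o + b o) = _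
        rw [add_smul, ← hs, ← ht, transpose_add, add_mul, mul_add]
        abel
      smul_mem' := by
        rintro c a ⟨s, hs⟩
        refine ⟨c * s, ?_⟩
        change (c • a o)ᵀ * Q' + Q' * (c • a o) = _
        rw [mul_smul, ← hs, transpose_smul, smul_mul_assoc, mul_smul_comm, smul_add] }
  have h : LL P ≤ U := by
    refine LL_le ?_ ?_
    · rintro _ ⟨σ, δ, rfl⟩
      set D := (P o)⁻¹ * (P o).map δ with hD
      have h1 : (P o).map δ = P o * D := by
        rw [hD, ← Matrix.mul_assoc, Matrix.mul_nonsing_inv _ hP, Matrix.one_mul]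
      have h2 : Dᵀ * Q' + Q' * D = (w * (δ ϖ / ϖ)) • Q' := by
        have h3 := congrArg (fun A : Matrix (B o) (B o) ℂ => A.map δ) hQ
        simp only [map_mul_der] at h3
        have h4 : R.map δ = 0 := by
          ext a b
          exact Pool.Agent.TH119.DR.deriv_alg δ (hR a b)
        have h5 : ((P o)ᵀ).map δ = ((P o).map δ)ᵀ := rfl
        have h6 : (ϖ ^ w • Q').map δ = (ϖ ^ w * (w * (δ ϖ / ϖ))) • Q' := by
          ext a b
          rw [Matrix.map_apply, Matrix.smul_apply, Matrix.smul_apply, smul_eq_mul, smul_eq_mul,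
            Derivation.leibniz, Derivation.leibniz_zpow]
          have h7 : δ (Q' a b) = 0 := Derivation.map_algebraMap δ (Q a b)
          rw [h7, smul_zero, zero_add]
          simp only [smul_eq_mul, zsmul_eq_mul]
          rw [zpow_sub_one₀ hϖ]
          field_simp
        rw [h4, Matrix.mul_zero, add_zero, h5, h1, h6, transpose_mul] at h3
        have h7 : Dᵀ * (P o)ᵀ * R * P o + (P o)ᵀ * R * (P o * D) = ϖ ^ w • (Dᵀ * Q' + Q' * D) := by
          calc Dᵀ * (P o)ᵀ * R * P o + (P o)ᵀ * R * (P o * D) =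
              Dᵀ * ((P o)ᵀ * R * P o) + ((P o)ᵀ * R * P o) * D := by
                simp only [Matrix.mul_assoc]
            _ = ϖ ^ w • (Dᵀ * Q' + Q' * D) := by
              rw [hQ, mul_smul_comm, smul_mul_assoc, smul_add]
        rw [h7, mul_smul] at h3
        have h8 : ϖ ^ w ≠ 0 := zpow_ne_zero _ hϖ
        exact smul_right_injective _ h8 h3
      refine ⟨σ (w * (δ ϖ / ϖ)), ?_⟩
      change (D.map σ)ᵀ * Q' + Q' * D.map σ = _
      have h3 : ∀ a b, σ (Q' a b) = Q' a b := fun a b => map_ratCast σ (Q a b)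
      ext a b
      have h4 := congrArg σ (congrFun (congrFun h2 a) b)
      rw [Matrix.add_apply, map_add, Matrix.mul_apply, Matrix.mul_apply, map_sum, map_sum,
        Matrix.smul_apply, smul_eq_mul, map_mul] at h4
      rw [Matrix.add_apply, Matrix.mul_apply, Matrix.mul_apply, Matrix.smul_apply, smul_eq_mul]
      refine Eq.trans ?_ (h4.trans ?_)
      · congr 1
        · refine Finset.sum_congr rfl fun c _ => ?_
          rw [map_mul, h3]
          rfl
        · refine Finset.sum_congr rfl fun c _ => ?_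
          rw [map_mul, h3]
          rfl
      · rw [h3]
    · rintro a ⟨s, hs⟩ b ⟨t, ht⟩
      refine ⟨0, ?_⟩
      change (a o * b o - b o * a o)ᵀ * Q' + Q' * (a o * b o - b o * a o) = _
      have ha : (a o)ᵀ * Q' = s • Q' - Q' * a o := by
        rw [← hs]
        abel
      have hb : (b o)ᵀ * Q' = t • Q' - Q' * b o := by
        rw [← ht]
        abel
      have e1 : (b o)ᵀ * (a o)ᵀ * Q' = s • (t • Q' - Q' * b o) - (t • Q' - Q' * b o) * a o := by
        rw [mul_assoc, ha, mul_sub, mul_smul_comm, hb, ← mul_assoc, hb]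
      have e2 : (a o)ᵀ * (b o)ᵀ * Q' = t • (s • Q' - Q' * a o) - (s • Q' - Q' * a o) * b o := by
        rw [mul_assoc, hb, mul_sub, mul_smul_comm, ha, ← mul_assoc, ha]
      rw [transpose_sub, transpose_mul, transpose_mul, sub_mul, e1, e2, zero_smul]
      simp only [smul_sub, sub_mul, smul_mul_assoc, mul_sub]
      rw [smul_comm s t Q', ← mul_assoc Q', ← mul_assoc Q']
      abel
  exact h hx

theorem form_LD (hϖ : ϖ ≠ 0) (o : J) (hP : IsUnit (P o).det) (Q : Matrix (B o) (B o) ℚ)
    (R : Matrix (B o) (B o) ℂ) (hR : IsAlg R) (w : ℤ)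
    (hQ : (P o)ᵀ * R * P o = ϖ ^ w • Q.map (algebraMap ℚ ℂ)) :
    ∀ x ∈ LD P, (x o)ᵀ * Q.map (algebraMap ℚ ℂ) + Q.map (algebraMap ℚ ℂ) * x o = 0 := by
  intro x hx
  set Q' := Q.map (algebraMap ℚ ℂ) with hQ'
  let U : Submodule ℂ (∀ j, Matrix (B j) (B j) ℂ) :=
    { carrier := {x | (x o)ᵀ * Q' + Q' * x o = 0}
      zero_mem' := by
        change ((0 : Matrix (B o) (B o) ℂ))ᵀ * Q' + Q' * 0 = _
        rw [transpose_zero, zero_mul, mul_zero, add_zero]
      add_mem' := by
        intro a b ha hb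
        change (a o + b o)ᵀ * Q' + Q' * (a o + b o) = _
        have ha' : (a o)ᵀ * Q' + Q' * a o = 0 := ha
        have hb' : (b o)ᵀ * Q' + Q' * b o = 0 := hb
        rw [transpose_add, add_mul, mul_add]
        calc (a o)ᵀ * Q' + (b o)ᵀ * Q' + (Q' * a o + Q' * b o) =
            ((a o)ᵀ * Q' + Q' * a o) + ((b o)ᵀ * Q' + Q' * b o) := by abel
          _ = 0 := by rw [ha', hb', add_zero]
      smul_mem' := by
        intro c a ha
        change (c • a o)ᵀ * Q' + Q' * (c • a o) = _
        have ha' : (a o)ᵀ * Q' + Q' * a o = 0 := ha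
        rw [transpose_smul, smul_mul_assoc, mul_smul_comm, ← smul_add, ha', smul_zero] }
  have h : LD P ≤ U := by
    rw [LD, Submodule.span_le]
    rintro _ ⟨a, ha, b, hb, rfl⟩
    obtain ⟨s, hs⟩ := form_LL hϖ o hP Q R hR w hQ ha
    obtain ⟨t, ht⟩ := form_LL hϖ o hP Q R hR w hQ hb
    change (a o * b o - b o * a o)ᵀ * Q' + Q' * (a o * b o - b o * a o) = _
    have ha : (a o)ᵀ * Q' = s • Q' - Q' * a o := by
      rw [← hs]
      abel
    have hb : (b o)ᵀ * Q' = t • Q' - Q' * b o := by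
      rw [← ht]
      abel
    have e1 : (b o)ᵀ * (a o)ᵀ * Q' = s • (t • Q' - Q' * b o) - (t • Q' - Q' * b o) * a o := by
      rw [mul_assoc, ha, mul_sub, mul_smul_comm, hb, ← mul_assoc, hb]
    have e2 : (a o)ᵀ * (b o)ᵀ * Q' = t • (s • Q' - Q' * a o) - (s • Q' - Q' * a o) * b o := by
      rw [mul_assoc, hb, mul_sub, mul_smul_comm, ha, ← mul_assoc, ha]
    rw [transpose_sub, transpose_mul, transpose_mul, sub_mul, e1, e2]
    simp only [smul_sub, sub_mul, smul_mul_assoc, mul_sub]
    rw [smul_comm s t Q', ← mul_assoc Q', ← mul_assoc Q']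
    abel
  exact h hx

end form

end Pool.Agent.R919.DR
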