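import Mathlib
import Pool.Agent.R919.DR.Cls

/-!
# De Rham-Betti classes on products: the main theorem
-/

set_option linter.unusedSectionVars false
set_option autoImplicit false

namespace Pool.Agent.R919.DR

open Matrix Module Pool.Agent.R919 Pool.Agent.R919.GT

section fam

variable {J : Type} [DecidableEq J] {B : J → Type} [∀ j, Fintype (B j)]
  [∀ j, DecidableEq (B j)] (ϖ : ℂ) (P : ∀ j, Matrix (B j) (B j) ℂ) {κ : Type} [Fintype κ]
  [DecidableEq κ] (f : κ → J)

/-- The condition of a class for the factors with index `j`. -/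
def CondP (j : J) (m : ℤ) (c : (∀ x, B (f x)) → ℚ) : Prop :=
  ∀ I, IsAlgebraic ℚ (ϖ ^ (-m) * tact (fun x => if f x = j then P (f x) else 1) (cc c) I)

/-- A function which satisfies the conditions for all colours is a sum of products. -/
theorem mem_prodP (e : J → ℤ) (W : Finset J) : ∀ c : (∀ x, B (f x)) → ℚ,
    (∀ I I', (∀ x, f x ∈ W → I x = I' x) → c I = c I') → (∀ j ∈ W, CondP ϖ P f j (e j) c) →
    c ∈ ∏ j ∈ W, drbClassesOf ϖ P f j (e j) := by
  induction W using Finset.induction_on with
  | empty =>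
    intro c hc _
    rw [Finset.prod_empty]
    by_cases hne : Nonempty (∀ x, B (f x))
    · obtain ⟨I₀⟩ := hne
      rw [Submodule.mem_one]
      refine ⟨c I₀, funext fun I => ?_⟩
      exact hc I₀ I fun x hx => absurd hx (Finset.notMem_empty _)
    · rw [not_nonempty_iff] at hne
      have h : c = 0 := Subsingleton.elim _ _
      rw [h]
      exact Submodule.zero_mem _
  | insert j W hj ih =>
    intro c hc hcond
    rw [Finset.prod_insert hj, mul_comm]
    have h1 : c = fun I => c (mixP (fun x => f x = j) I I) := by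
      funext I
      congr 1
      funext x
      simp [mixP]
    rw [h1]
    refine diag_mem _ _ (fun I' I => c (mixP (fun x => f x = j) I' I)) (fun I => ?_) (fun I' => ?_)
    · rw [mem_drbOf]
      refine ⟨fun I' I'' h => ?_, fun I' => ?_⟩
      · refine congrArg c (funext fun x => ?_)
        by_cases hx : f x = j
        · simp [mixP, hx, h x hx]
        · simp [mixP, hx]
      · have h2 := hcond j (Finset.mem_insert_self j W) (mixP (fun x => f x = j) I' I)
        have h3 := congrFun (loc (fun x => f x = j)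
          (fun x => if f x = j then P (f x) else 1) (fun x hx => if_neg hx) (cc c) I) I'
        change IsAlgebraic ℚ (ϖ ^ (-e j) * tact (fun x => if f x = j then P (f x) else 1)
          (fun I' => cc c (mixP (fun x => f x = j) I' I)) I')
        rw [h3]
        exact h2
    · refine ih _ (fun I I'' h => ?_) (fun t ht I => ?_)
      · refine hc _ _ fun x hx => ?_
        by_cases hx' : f x = j
        · simp [mixP, hx']
        · have hx2 : f x ∈ W := (Finset.mem_insert.1 hx).resolve_left hx'
          simp [mixP, hx', h x hx2]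
      · have hjt : ∀ x, f x = j → f x ≠ t := by
          rintro x hx hx'
          exact hj (by rw [← hx, hx']; exact ht)
        have h2 := hcond t (Finset.mem_insert_of_mem ht) (mixP (fun x => f x = j) I' I)
        have h3 := congrFun (loc' (fun x => f x = j)
          (fun x => if f x = t then P (f x) else 1) (fun x hx => if_neg (hjt x hx)) (cc c) I') I
        change IsAlgebraic ℚ (ϖ ^ (-e t) * tact (fun x => if f x = t then P (f x) else 1)
          (fun I => cc c (mixP (fun x => f x = j) I' I)) I)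
        rw [h3]
        exact h2

/-- The action on the factors of several colours. -/
noncomputable def wactP (W : Finset J) : End ℂ ((∀ x, B (f x)) → ℂ) :=
  tact (fun x => if f x ∈ W then P (f x) else 1)

theorem wactP_insert {W : Finset J} {j : J} (hj : j ∉ W) :
    wactP P f (insert j W) = tact (fun x => if f x = j then P (f x) else 1) * wactP P f W := by
  rw [wactP, wactP, ← tact_mul]
  congr 1
  funext x
  by_cases h : f x = j
  · have h' : f x ∉ W := by rw [h]; exact hj
    simp [h, hj]
  · simp [h]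

theorem wactP_smul {W : Finset J} {c : (∀ x, B (f x)) → ℂ} (r : J → ℂ)
    (h : ∀ j ∈ W, tact (fun x => if f x = j then P (f x) else 1) c = r j • c) :
    wactP P f W c = (∏ j ∈ W, r j) • c := by
  induction W using Finset.induction_on with
  | empty =>
    rw [wactP]
    simp only [Finset.notMem_empty, if_false, Finset.prod_empty, one_smul]
    rw [tact_one]
    rfl
  | insert j W hj ih =>
    rw [wactP_insert P f hj, Module.End.mul_apply,
      ih (fun i hi => h i (Finset.mem_insert_of_mem hi)), map_smul,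
      h j (Finset.mem_insert_self j W), Finset.prod_insert hj, smul_smul, mul_comm]

theorem wactP_image : wactP P f (Finset.univ.image f) = tact (fun x => P (f x)) := by
  rw [wactP]
  congr 1
  funext x
  rw [if_pos (Finset.mem_image_of_mem f (Finset.mem_univ x))]

variable {ϖ P}

/-- The colours without exceptions. -/
theorem killed_of {hϖ : ϖ ≠ 0} (hP : ∀ j, IsUnit (P j).det) {m : ℤ} {c : (∀ x, B (f x)) → ℚ}
    (hc : c ∈ drbClasses ϖ P f m) {i : J} (hi : IsEllPeriod ϖ (P i))
    (hW : ∀ t ∈ (Finset.univ.image f).erase i, ∃ x ∈ LD P, x t = 0 ∧ x i ≠ 0) :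
    Killed f i (cc c) := by
  intro y hy
  obtain ⟨z, hz, hzi, hzt⟩ := conc_gen LD_brk hi.dim (LD_sl i) (full hi (hP i))
    ((Finset.univ.image f).erase i) hW y hy
  have h1 : (fun x => (Pi.single i y : ∀ j, Matrix (B j) (B j) ℂ) (f x)) =
      fun x => z (f x) := by
    funext x
    by_cases hx : f x = i
    · subst hx
      rw [Pi.single_eq_same, hzi]
    · rw [Pi.single_eq_of_ne hx, hzt (f x) (Finset.mem_erase.2
        ⟨hx, Finset.mem_image_of_mem f (Finset.mem_univ x)⟩)]
  rw [h1]
  exact act_LD f hϖ hP hc hz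

theorem tact_of {hϖ : ϖ ≠ 0} (hP : ∀ j, IsUnit (P j).det) {m : ℤ} {c : (∀ x, B (f x)) → ℚ}
    (hc : c ∈ drbClasses ϖ P f m) {i : J} (hi : IsEllPeriod ϖ (P i))
    (hW : ∀ t ∈ (Finset.univ.image f).erase i, ∃ x ∈ LD P, x t = 0 ∧ x i ≠ 0) :
    tact (fun x => if f x = i then P (f x) else 1) (cc c) =
      (P i).det ^ (cnt f i / 2) • cc c := by
  have h1 := cact_eq hi.dim (killed_of (hϖ := hϖ) f hP hc hi hW) (g := P i) (hP i).ne_zero
  rw [← h1, cact]
  congr 2
  funext x
  by_cases h : f x = i
  · subst h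
    rw [Pi.mulSingle_eq_same, if_pos rfl]
  · rw [Pi.mulSingle_eq_of_ne h, if_neg h]

/-- The main theorem. -/
theorem main (hϖ : ϖ ≠ 0) (hP : ∀ j, IsUnit (P j).det) (o : J) (Q : Matrix (B o) (B o) ℚ)
    (hQu : Q.det ≠ 0) (R : Matrix (B o) (B o) ℂ) (hR : IsAlg R) (w : ℤ)
    (hQ : (P o)ᵀ * R * P o = ϖ ^ w • Q.map (algebraMap ℚ ℂ))
    (h1 : ∀ j, j ≠ o → IsEllPeriod ϖ (P j))
    (h2 : ∀ i j, i ≠ o → j ≠ o → i ≠ j → NoHom (P i) (P j)) :
    ∃ S : Finset J, o ∉ S ∧ 2 * S.card ≤ Fintype.card (B o) ∧
      ∀ (κ : Type) [Fintype κ] [DecidableEq κ] [Nonempty κ] (f : κ → J), (∀ x, f x ∉ S) →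
        ∀ m : ℤ, ∃ e : J → ℤ, (∑ j ∈ Finset.univ.image f, e j = m) ∧
          drbClasses ϖ P f m ≤ ∏ j ∈ Finset.univ.image f, drbClassesOf ϖ P f j (e j) := by
  have hpair : ∀ i t, i ≠ o → t ≠ o → i ≠ t → ∃ x ∈ LD P, x t = 0 ∧ x i ≠ 0 :=
    fun i t hi ht hit => pair (h1 i hi) (h1 t ht) (hP i) (hP t) (h2 t i ht hi (Ne.symm hit))
  have hQu' : IsUnit (Q.map (algebraMap ℚ ℂ)) := by
    rw [Matrix.isUnit_iff_isUnit_det]
    have h3 : (Q.map (algebraMap ℚ ℂ)).det = algebraMap ℚ ℂ Q.det := by
      rw [RingHom.map_det]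
      rfl
    rw [h3, isUnit_iff_ne_zero]
    exact (map_ne_zero _).2 hQu
  obtain ⟨S, hS1, hS2, _, hS3⟩ := exists_finset_gen (M := LD P) LD_brk o hQu'
    (form_LD hϖ o (hP o) Q R hR w hQ) (fun i hi => (h1 i hi).dim) (fun i _ => LD_sl i)
    (fun i hi => full (h1 i hi) (hP i)) hpair
  refine ⟨S, hS1, hS2, fun κ _ _ _ f hf m => ?_⟩
  set W := Finset.univ.image f with hW
  have hWS : ∀ j ∈ W, j ∉ S := by
    intro j hj
    obtain ⟨x, _, rfl⟩ := Finset.mem_image.1 hj
    exact hf x
  -- the special colour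
  obtain ⟨j0, hj0, hj0'⟩ : ∃ j0 ∈ W, ∀ j ∈ W, j ≠ j0 → j ≠ o := by
    by_cases ho : o ∈ W
    · exact ⟨o, ho, fun j _ hj => hj⟩
    · have x₀ : κ := Classical.arbitrary κ
      refine ⟨f x₀, Finset.mem_image_of_mem f (Finset.mem_univ x₀), fun j hj _ h => ?_⟩
      rw [h] at hj
      exact ho hj
  have hins : insert j0 (W.erase j0) = W := Finset.insert_erase hj0
  set r : J → ℤ := fun j => ((cnt f j / 2 : ℕ) : ℤ) with hr
  refine ⟨fun j => if j = j0 then m - ∑ i ∈ W.erase j0, r i else r j, ?_, ?_⟩
  · rw [← hins, Finset.sum_insert (Finset.notMem_erase _ _), if_pos rfl, Finset.erase_insert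
      (Finset.notMem_erase _ _), Finset.sum_congr rfl (fun j hj =>
        if_neg (Finset.ne_of_mem_erase hj))]
    ring
  · intro c hc
    have hcond : ∀ i ∈ W, i ≠ o → tact (fun x => if f x = i then P (f x) else 1) (cc c) =
        (P i).det ^ (cnt f i / 2) • cc c := by
      intro i hi hio
      refine tact_of (hϖ := hϖ) f hP hc (h1 i hio) (fun t ht => ?_)
      have ht' := Finset.mem_erase.1 ht
      by_cases hto : t = o
      · subst hto
        exact hS3 i hio (hWS i hi)
      · exact hpair i t hio hto (Ne.symm ht'.1)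
    choose! a ha0 ha hdet using fun j (hj : j ≠ o) => (h1 j hj).det
    refine mem_prodP ϖ P f _ W c (fun I I' h => ?_) (fun j hj => ?_)
    · exact congrArg c (funext fun x => h x (Finset.mem_image_of_mem f (Finset.mem_univ x)))
    · by_cases hjj : j = j0
      · subst hjj
        intro I
        rw [if_pos rfl]
        have h3 := (mem_drb f).1 hc I
        rw [← wactP_image, ← hW, ← hins, wactP_insert P f (Finset.notMem_erase _ _),
          Module.End.mul_apply, wactP_smul P f (fun i => (P i).det ^ (cnt f i / 2))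
            (fun i hi => hcond i (Finset.mem_of_mem_erase hi)
              (hj0' i (Finset.mem_of_mem_erase hi) (Finset.ne_of_mem_erase hi))), map_smul,
          Pi.smul_apply, smul_eq_mul] at h3
        have h4 : ∏ i ∈ W.erase j, (P i).det ^ (cnt f i / 2) =
            (∏ i ∈ W.erase j, a i ^ (cnt f i / 2)) * ϖ ^ (∑ i ∈ W.erase j, r i) := by
          have h5 : ϖ ^ (∑ i ∈ W.erase j, r i) = ∏ i ∈ W.erase j, ϖ ^ (cnt f i / 2) := by
            rw [hr, ← Nat.cast_sum, zpow_natCast, Finset.prod_pow_eq_pow_sum]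
          rw [h5, ← Finset.prod_mul_distrib]
          refine Finset.prod_congr rfl fun i hi => ?_
          rw [hdet i (hj0' i (Finset.mem_of_mem_erase hi) (Finset.ne_of_mem_erase hi)), mul_pow]
        rw [h4] at h3
        set α := ∏ i ∈ W.erase j, a i ^ (cnt f i / 2) with hα
        have hα0 : α ≠ 0 := Finset.prod_ne_zero_iff.2 fun i hi => pow_ne_zero _
          (ha0 i (hj0' i (Finset.mem_of_mem_erase hi) (Finset.ne_of_mem_erase hi)))
        have hαa : IsAlgebraic ℚ α := by
          rw [hα]
          refine Finset.prod_induction _ (IsAlgebraic ℚ) (fun a b ha hb => ha.mul hb)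
            isAlgebraic_one fun i hi => ?_
          exact (ha i (hj0' i (Finset.mem_of_mem_erase hi) (Finset.ne_of_mem_erase hi))).pow _
        have h5 : ϖ ^ (-(m - ∑ i ∈ W.erase j, r i)) *
            tact (fun x => if f x = j then P (f x) else 1) (cc c) I =
            α⁻¹ * (ϖ ^ (-m) * (α * ϖ ^ (∑ i ∈ W.erase j, r i) *
              tact (fun x => if f x = j then P (f x) else 1) (cc c) I)) := by
          rw [neg_sub, sub_eq_add_neg, zpow_add₀ hϖ]
          field_simp
        rw [h5]
        exact hαa.inv.mul h3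
      · intro I
        rw [if_neg hjj, hcond j hj (hj0' j hj hjj), hdet j (hj0' j hj hjj), mul_pow,
          Pi.smul_apply, smul_eq_mul]
        have h5 : ϖ ^ (-r j) * (a j ^ (cnt f j / 2) * ϖ ^ (cnt f j / 2) * cc c I) =
            a j ^ (cnt f j / 2) * cc c I := by
          rw [hr, _root_.zpow_neg, zpow_natCast]
          have := pow_ne_zero (cnt f j / 2) hϖ
          field_simp
        rw [h5]
        exact ((ha j (hj0' j hj hjj)).pow _).mul (isAlgebraic_algebraMap (c I))

end fam

end Pool.Agent.R919.DR
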